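import Pool.Agent.Lib.CoP.C.Defs

/-!
# CoP.C.Alg1 (size 250): brackets in splitting coordinates

Notation at `w = ((a,b),z) ∈ ball 0 ρ`: `T = fderiv ℝ Ψ w`, `D = fderiv ℝ Θ (Ψ w)`: `D ∘ T = id` (chain rule, `left_inv`), so `T` is injective, and `T ∘ D = id` (equal finite dimensions: `finrank` of the domain
and codomain; or: `Ψ (Θ e) = e` on the open set `Ψ '' ball`, chain rule). `x := (Θ ·).1.1`, `ζ := (Θ ·).2`.
* `fderiv_y`: `y ∘ T = (second coordinate of the first component)` from `hy` (derivative of `y ∘ Ψ`).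
* `fderiv_x`: `fderiv x (Ψ w) ∘ T = first coordinate`.
* Decomposition: for `α : E →L ℝ`: `α = α(T(1,0,0)) dx + α(T(0,1,0)) y + (α ∘ T|_S) ∘ Dζ` (compose with the isomorphism `T`).
* `bracket_formula` (C1): with `α = Du`, `β = Dv`, `α = α_a dx + α_b y + α'`, `α' = α_z ∘ Dζ`: `β(Pα) = α_a β(P dx) + α_b β(P y) + β(Pα') = -α_a β_b + α_b β_a + β(Pα')` and, by skewness,
  `β(Pα') = -α'(Pβ) = -(β_a α'(P dx) + β_b α'(P y) + α'(Pβ')) = -α'(Pβ') = β'(Pα')` since `α'(T ∂_a) = α'(T ∂_b) = 0`. So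
  `brk P u v (Ψ w) = U_b V_a - U_a V_b + γ(Dζ (P (δ ∘ Dζ)))` at the point `Ψ w`, with `δ = D_z U`, `γ = D_z V`.
* `indep`: for `δ γ : S →L ℝ` the function `w ↦ γ (Dζ_{Ψ w} (P (Ψ w) (δ ∘ Dζ_{Ψ w}))) = brk P (δ ∘ ζ) (γ ∘ ζ) (Ψ w)` does not depend on `a`, `b`: `u := δ∘ζ`, `v := γ∘ζ` are smooth on the open set
  `O = Ψ '' ball`; `brk P y u (Ψ w) = fderiv u (P y) = ∂_a (u ∘ Ψ) = ∂_a (δ z) = 0`, similarly `brk P x u = -∂_b (u ∘ Ψ) = 0` on `O`; Jacobi (`LPS.jacobi` with `U = O`, `u = y, v = δζ, w = γζ`):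
  `{y,{δζ,γζ}} = -{δζ,{γζ,y}} - {γζ,{y,δζ}} = 0` (brackets with functions vanishing on `O`), i.e. `∂_a ({δζ,γζ} ∘ Ψ) = 0`; the same with `x`. The ball is convex (sup norm: a product), so the function is constant on the segments
  from `((a,b),z)` to `((0,0),z)`; at `((0,0),z)` it is `γ (PS P Θ z δ)` (`base`).
-/

open Set Filter Metric
open scoped Topology ContDiff

noncomputable section

set_option linter.unusedSectionVars false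

namespace CoP

variable {E : Type*} [NormedAddCommGroup E] [NormedSpace ℝ E] [FiniteDimensional ℝ E]
  {P : E → (E →L[ℝ] ℝ) →L[ℝ] E} {r ρ : ℝ} {y l : E →L[ℝ] ℝ}
  {Ψ : (ℝ × ℝ) × ↥(kerS y l) → E} {Θ : E → (ℝ × ℝ) × ↥(kerS y l)}

omit [FiniteDimensional ℝ E] in
private theorem al_dPsi (h : SplitChart P r ρ y l Ψ Θ) {w : (ℝ × ℝ) × ↥(kerS y l)}
    (hw : w ∈ ball (0 : (ℝ × ℝ) × ↥(kerS y l)) ρ) : DifferentiableAt ℝ Ψ w :=
  (h.smooth.differentiableOn (by simp)).differentiableAt (isOpen_ball.mem_nhds hw)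

omit [FiniteDimensional ℝ E] in
private theorem al_dTheta (h : SplitChart P r ρ y l Ψ Θ) {w : (ℝ × ℝ) × ↥(kerS y l)}
    (hw : w ∈ ball (0 : (ℝ × ℝ) × ↥(kerS y l)) ρ) : DifferentiableAt ℝ Θ (Ψ w) :=
  (h.smoothInv.differentiableOn (by simp)).differentiableAt (h.isOpen.mem_nhds ⟨w, hw, rfl⟩)

omit [FiniteDimensional ℝ E] in
private theorem al_comp (h : SplitChart P r ρ y l Ψ Θ) {w : (ℝ × ℝ) × ↥(kerS y l)}
    (hw : w ∈ ball (0 : (ℝ × ℝ) × ↥(kerS y l)) ρ) :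
    (fderiv ℝ Θ (Ψ w)).comp (fderiv ℝ Ψ w) = ContinuousLinearMap.id ℝ _ ∧
    (fderiv ℝ Ψ w).comp (fderiv ℝ Θ (Ψ w)) = ContinuousLinearMap.id ℝ _ := by
  constructor
  · rw [← fderiv_comp w (al_dTheta h hw) (al_dPsi h hw)]
    have h1 : (Θ ∘ Ψ) =ᶠ[𝓝 w] id := by
      filter_upwards [isOpen_ball.mem_nhds hw] with w' hw'
      exact h.left_inv w' hw'
    rw [h1.fderiv_eq, fderiv_id]
  · have h0 := h.left_inv w hw
    have h2 : (fderiv ℝ Ψ w).comp (fderiv ℝ Θ (Ψ w)) = fderiv ℝ (Ψ ∘ Θ) (Ψ w) := by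
      rw [fderiv_comp (Ψ w) (by rw [h0]; exact al_dPsi h hw) (al_dTheta h hw), h0]
    rw [h2]
    have h1 : (Ψ ∘ Θ) =ᶠ[𝓝 (Ψ w)] id := by
      filter_upwards [h.isOpen.mem_nhds ⟨w, hw, rfl⟩] with e he
      obtain ⟨w', hw', rfl⟩ := he
      show Ψ (Θ (Ψ w')) = Ψ w'
      rw [h.left_inv w' hw']
    rw [h1.fderiv_eq, fderiv_id]

/-- `Ψ` and `Θ` are inverse to each other, first derivatives. -/
theorem SplitChart.fderiv_comp (h : SplitChart P r ρ y l Ψ Θ) {w : (ℝ × ℝ) × ↥(kerS y l)}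
    (hw : w ∈ ball (0 : (ℝ × ℝ) × ↥(kerS y l)) ρ) :
    (fderiv ℝ Θ (Ψ w)).comp (fderiv ℝ Ψ w) = ContinuousLinearMap.id ℝ _ ∧
    (fderiv ℝ Ψ w).comp (fderiv ℝ Θ (Ψ w)) = ContinuousLinearMap.id ℝ _ := al_comp h hw

omit [FiniteDimensional ℝ E] in
private theorem al_DT (h : SplitChart P r ρ y l Ψ Θ) {w : (ℝ × ℝ) × ↥(kerS y l)}
    (hw : w ∈ ball (0 : (ℝ × ℝ) × ↥(kerS y l)) ρ) (c : (ℝ × ℝ) × ↥(kerS y l)) :
    fderiv ℝ Θ (Ψ w) (fderiv ℝ Ψ w c) = c := by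
  have h1 := congrArg (fun L => L c) (al_comp h hw).1
  exact h1

omit [FiniteDimensional ℝ E] in
private theorem al_TD (h : SplitChart P r ρ y l Ψ Θ) {w : (ℝ × ℝ) × ↥(kerS y l)}
    (hw : w ∈ ball (0 : (ℝ × ℝ) × ↥(kerS y l)) ρ) (e : E) :
    fderiv ℝ Ψ w (fderiv ℝ Θ (Ψ w) e) = e := by
  have h1 := congrArg (fun L => L e) (al_comp h hw).2
  exact h1

omit [FiniteDimensional ℝ E] in
private theorem al_dx (h : SplitChart P r ρ y l Ψ Θ) {w : (ℝ × ℝ) × ↥(kerS y l)}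
    (hw : w ∈ ball (0 : (ℝ × ℝ) × ↥(kerS y l)) ρ) (e : E) :
    fderiv ℝ (fun e => (Θ e).1.1) (Ψ w) e = (fderiv ℝ Θ (Ψ w) e).1.1 := by
  have h1 := ((al_dTheta h hw).hasFDerivAt.fst).fst.fderiv
  rw [h1]
  rfl

omit [FiniteDimensional ℝ E] in
private theorem al_dz (h : SplitChart P r ρ y l Ψ Θ) {w : (ℝ × ℝ) × ↥(kerS y l)}
    (hw : w ∈ ball (0 : (ℝ × ℝ) × ↥(kerS y l)) ρ) (e : E) :
    fderiv ℝ (fun e => (Θ e).2) (Ψ w) e = (fderiv ℝ Θ (Ψ w) e).2 := by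
  have h1 := (al_dTheta h hw).hasFDerivAt.snd.fderiv
  rw [h1]
  rfl

omit [FiniteDimensional ℝ E] in
private theorem al_yT (h : SplitChart P r ρ y l Ψ Θ) {w : (ℝ × ℝ) × ↥(kerS y l)}
    (hw : w ∈ ball (0 : (ℝ × ℝ) × ↥(kerS y l)) ρ) (c : (ℝ × ℝ) × ↥(kerS y l)) :
    y (fderiv ℝ Ψ w c) = c.1.2 := by
  have h1 : fderiv ℝ (fun w => y (Ψ w)) w = y.comp (fderiv ℝ Ψ w) :=
    (y.hasFDerivAt.comp w (al_dPsi h hw).hasFDerivAt).fderiv
  have h2 : (fun w => y (Ψ w)) =ᶠ[𝓝 w] fun w => w.1.2 := by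
    filter_upwards [isOpen_ball.mem_nhds hw] with w' hw'
    exact h.hy w' hw'
  have h3 : fderiv ℝ (fun w : (ℝ × ℝ) × ↥(kerS y l) => w.1.2) w =
      (ContinuousLinearMap.snd ℝ ℝ ℝ).comp (ContinuousLinearMap.fst ℝ (ℝ × ℝ) ↥(kerS y l)) :=
    ((ContinuousLinearMap.snd ℝ ℝ ℝ).comp
      (ContinuousLinearMap.fst ℝ (ℝ × ℝ) ↥(kerS y l))).hasFDerivAt.fderiv
  rw [h2.fderiv_eq, h3] at h1
  exact (congrArg (fun L => L c) h1).symm

omit [FiniteDimensional ℝ E] in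
private theorem al_y (h : SplitChart P r ρ y l Ψ Θ) {w : (ℝ × ℝ) × ↥(kerS y l)}
    (hw : w ∈ ball (0 : (ℝ × ℝ) × ↥(kerS y l)) ρ) (e : E) :
    y e = (fderiv ℝ Θ (Ψ w) e).1.2 := by
  rw [← al_yT h hw, al_TD h hw]

/-- decomposition of covectors -/
private theorem al_dec (h : SplitChart P r ρ y l Ψ Θ) {w : (ℝ × ℝ) × ↥(kerS y l)}
    (hw : w ∈ ball (0 : (ℝ × ℝ) × ↥(kerS y l)) ρ) (α : E →L[ℝ] ℝ) :
    α = α (fderiv ℝ Ψ w ((1, 0), 0)) • fderiv ℝ (fun e => (Θ e).1.1) (Ψ w) +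
      α (fderiv ℝ Ψ w ((0, 1), 0)) • y +
      ((α.comp (fderiv ℝ Ψ w)).comp (ContinuousLinearMap.inr ℝ (ℝ × ℝ) ↥(kerS y l))).comp
        (fderiv ℝ (fun e => (Θ e).2) (Ψ w)) := by
  ext e
  have h1 : fderiv ℝ Θ (Ψ w) e = (fderiv ℝ Θ (Ψ w) e).1.1 • (((1, 0), 0) : (ℝ × ℝ) × ↥(kerS y l)) +
      (fderiv ℝ Θ (Ψ w) e).1.2 • (((0, 1), 0) : (ℝ × ℝ) × ↥(kerS y l)) +
      ((0, 0), (fderiv ℝ Θ (Ψ w) e).2) := by
    ext <;> simp
  have h2 : α e = α (fderiv ℝ Ψ w (fderiv ℝ Θ (Ψ w) e)) := by rw [al_TD h hw]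
  rw [h2, h1]
  simp only [map_add, map_smul, ContinuousLinearMap.add_apply, ContinuousLinearMap.smul_apply,
    ContinuousLinearMap.comp_apply, ContinuousLinearMap.inr_apply, smul_eq_mul]
  rw [al_dx h hw, al_dz h hw, al_y h hw e]
  have h3 : ((0 : ℝ × ℝ), (fderiv ℝ Θ (Ψ w) e).2) = (((0, 0), (fderiv ℝ Θ (Ψ w) e).2) :
      (ℝ × ℝ) × ↥(kerS y l)) := rfl
  rw [h3]
  ring

/-- functions which commute with two functions commute with their bracket -/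
private theorem al_jac (hP : LPS P r) {O : Set E} (hO : IsOpen O) (hOr : O ⊆ ball 0 r)
    {q f g : E → ℝ} (hq : ContDiffOn ℝ ∞ q O) (hf : ContDiffOn ℝ ∞ f O)
    (hg : ContDiffOn ℝ ∞ g O) (h1 : ∀ x ∈ O, brk P q f x = 0) (h2 : ∀ x ∈ O, brk P q g x = 0)
    {x : E} (hx : x ∈ O) : brk P q (brk P f g) x = 0 := by
  have h3 := hP.jacobi O hOr hO q f g hq hf hg x hx
  have h4 : brk P f (brk P g q) x = 0 := by
    have h5 : brk P g q =ᶠ[𝓝 x] fun _ => (0 : ℝ) := by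
      filter_upwards [hO.mem_nhds hx] with e he
      have h6 := h2 e he
      unfold brk at h6 ⊢
      rw [hP.skew e (hOr he), h6, neg_zero]
    unfold brk at h5 ⊢
    rw [h5.fderiv_eq]
    simp
  have h5 : brk P g (brk P q f) x = 0 := by
    have h6 : brk P q f =ᶠ[𝓝 x] fun _ => (0 : ℝ) := by
      filter_upwards [hO.mem_nhds hx] with e he
      exact h1 e he
    unfold brk at h6 ⊢
    rw [h6.fderiv_eq]
    simp
  rw [h4, h5, add_zero, add_zero] at h3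
  exact h3

private theorem al_smooth (hP : LPS P r) {O : Set E} (hO : IsOpen O) (hOr : O ⊆ ball 0 r)
    {f g : E → ℝ} (hf : ContDiffOn ℝ ∞ f O) (hg : ContDiffOn ℝ ∞ g O) :
    ContDiffOn ℝ ∞ (brk P f g) O := by
  have h1 : ContDiffOn ℝ ∞ (fderiv ℝ f) O := hf.fderiv_of_isOpen hO (by simp)
  have h2 : ContDiffOn ℝ ∞ (fderiv ℝ g) O := hg.fderiv_of_isOpen hO (by simp)
  exact h2.clm_apply ((hP.smooth.mono hOr).clm_apply h1)

private theorem al_fz (h : SplitChart P r ρ y l Ψ Θ) {w : (ℝ × ℝ) × ↥(kerS y l)}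
    (hw : w ∈ ball (0 : (ℝ × ℝ) × ↥(kerS y l)) ρ) (δ : ↥(kerS y l) →L[ℝ] ℝ) :
    fderiv ℝ (fun e => δ (Θ e).2) (Ψ w) = δ.comp (fderiv ℝ (fun e => (Θ e).2) (Ψ w)) := by
  have h1 := (al_dTheta h hw).hasFDerivAt.snd
  have h2 := (δ.hasFDerivAt.comp (Ψ w) h1).fderiv
  rw [h1.fderiv]
  exact h2

/-- the bracket of functions of the third coordinate does not depend on the first two -/
private theorem al_indep (hP : LPS P r) (h : SplitChart P r ρ y l Ψ Θ) {c : ℝ × ℝ}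
    {z : ↥(kerS y l)} (hw : (c, z) ∈ ball (0 : (ℝ × ℝ) × ↥(kerS y l)) ρ)
    (δ γ : ↥(kerS y l) →L[ℝ] ℝ) :
    brk P (fun e => δ (Θ e).2) (fun e => γ (Θ e).2) (Ψ (c, z)) =
      brk P (fun e => δ (Θ e).2) (fun e => γ (Θ e).2) (Ψ ((0, 0), z)) := by
  set O : Set E := Ψ '' ball 0 ρ with hOdef
  have hO : IsOpen O := h.isOpen
  have hOr : O ⊆ ball 0 r := by
    rintro _ ⟨w, hw, rfl⟩
    exact h.maps w hw
  have hz : ∀ δ : ↥(kerS y l) →L[ℝ] ℝ, ContDiffOn ℝ ∞ (fun e => δ (Θ e).2) O := fun δ =>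
    δ.contDiff.comp_contDiffOn (contDiff_snd.comp_contDiffOn h.smoothInv)
  have hx : ContDiffOn ℝ ∞ (fun e => (Θ e).1.1) O :=
    contDiff_fst.comp_contDiffOn (contDiff_fst.comp_contDiffOn h.smoothInv)
  have hyy : ContDiffOn ℝ ∞ (fun e => y e) O := y.contDiff.contDiffOn
  set G : E → ℝ := brk P (fun e => δ (Θ e).2) (fun e => γ (Θ e).2) with hG
  have hGs : ContDiffOn ℝ ∞ G O := al_smooth hP hO hOr (hz δ) (hz γ)
  have hyfd : ∀ e, fderiv ℝ (fun e => y e) e = y := fun e => y.hasFDerivAt.fderiv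
  have hy0 : ∀ (δ : ↥(kerS y l) →L[ℝ] ℝ), ∀ e ∈ O,
      brk P (fun e => y e) (fun e => δ (Θ e).2) e = 0 := by
    rintro δ _ ⟨w, hw, rfl⟩
    unfold brk
    rw [hyfd, h.dy w hw, al_fz h hw, ContinuousLinearMap.comp_apply, al_dz h hw, al_DT h hw]
    exact map_zero δ
  have hx0 : ∀ (δ : ↥(kerS y l) →L[ℝ] ℝ), ∀ e ∈ O,
      brk P (fun e => (Θ e).1.1) (fun e => δ (Θ e).2) e = 0 := by
    rintro δ _ ⟨w, hw, rfl⟩
    unfold brk
    rw [h.dx w hw, map_neg, al_fz h hw, ContinuousLinearMap.comp_apply, al_dz h hw,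
      al_DT h hw]
    show -δ 0 = 0
    rw [map_zero, neg_zero]
  have hGd : ∀ w ∈ ball (0 : (ℝ × ℝ) × ↥(kerS y l)) ρ, DifferentiableAt ℝ G (Ψ w) := fun w hw =>
    (hGs.differentiableOn (by simp)).differentiableAt (hO.mem_nhds ⟨w, hw, rfl⟩)
  have hda : ∀ w ∈ ball (0 : (ℝ × ℝ) × ↥(kerS y l)) ρ,
      fderiv ℝ G (Ψ w) (fderiv ℝ Ψ w ((1, 0), 0)) = 0 := by
    intro w hw
    have h1 := al_jac hP hO hOr hyy (hz δ) (hz γ) (hy0 δ) (hy0 γ) (x := Ψ w) ⟨w, hw, rfl⟩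
    unfold brk at h1
    rw [hyfd, h.dy w hw] at h1
    exact h1
  have hdb : ∀ w ∈ ball (0 : (ℝ × ℝ) × ↥(kerS y l)) ρ,
      fderiv ℝ G (Ψ w) (fderiv ℝ Ψ w ((0, 1), 0)) = 0 := by
    intro w hw
    have h1 := al_jac hP hO hOr hx (hz δ) (hz γ) (hx0 δ) (hx0 γ) (x := Ψ w) ⟨w, hw, rfl⟩
    unfold brk at h1
    rw [h.dx w hw, map_neg, neg_eq_zero] at h1
    exact h1
  have hz' : ‖z‖ < ρ := by
    rw [mem_ball_zero_iff, Prod.norm_def] at hw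
    exact (le_max_right _ _).trans_lt hw
  have hc' : ‖c‖ < ρ := by
    rw [mem_ball_zero_iff, Prod.norm_def] at hw
    exact (le_max_left _ _).trans_lt hw
  have hmem : ∀ c' ∈ ball (0 : ℝ × ℝ) ρ, (c', z) ∈ ball (0 : (ℝ × ℝ) × ↥(kerS y l)) ρ := by
    intro c' hc'
    rw [mem_ball_zero_iff] at hc' ⊢
    rw [Prod.norm_def]
    exact max_lt hc' hz'
  have hfd : ∀ c' ∈ ball (0 : ℝ × ℝ) ρ, HasFDerivAt (fun c' => G (Ψ (c', z)))
      (((fderiv ℝ G (Ψ (c', z))).comp (fderiv ℝ Ψ (c', z))).comp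
        (ContinuousLinearMap.inl ℝ (ℝ × ℝ) ↥(kerS y l))) c' := by
    intro c' hc'
    have h1 := (hGd _ (hmem c' hc')).hasFDerivAt.comp (c', z)
      (al_dPsi h (hmem c' hc')).hasFDerivAt
    exact HasFDerivAt.comp c' (g := fun w => G (Ψ w))
      (f := fun c' : ℝ × ℝ => ((c', z) : (ℝ × ℝ) × ↥(kerS y l))) h1
      (hasFDerivAt_prodMk_left c' z)
  have hzero : ∀ c' ∈ ball (0 : ℝ × ℝ) ρ, fderiv ℝ (fun c' => G (Ψ (c', z))) c' = 0 := by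
    intro c' hc'
    rw [(hfd c' hc').fderiv]
    ext
    · exact hda _ (hmem c' hc')
    · exact hdb _ (hmem c' hc')
  have hconst := isOpen_ball.is_const_of_fderiv_eq_zero (convex_ball (0 : ℝ × ℝ) ρ).isPreconnected
    (f := fun c' => G (Ψ (c', z))) (fun c' hc' => (hfd c' hc').differentiableAt.differentiableWithinAt)
    (fun c' hc' => hzero c' hc') (x := c) (y := (0, 0)) (mem_ball_zero_iff.2 hc')
    (mem_ball_self h.pos)
  exact hconst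

/-- The bracket in splitting coordinates. -/
theorem SplitChart.bracket (hP : LPS P r) (h : SplitChart P r ρ y l Ψ Θ)
    {w : (ℝ × ℝ) × ↥(kerS y l)} (hw : w ∈ ball (0 : (ℝ × ℝ) × ↥(kerS y l)) ρ) {u v : E → ℝ}
    (hu : DifferentiableAt ℝ u (Ψ w)) (hv : DifferentiableAt ℝ v (Ψ w)) :
    brk P u v (Ψ w) =
      fderiv ℝ (fun c => u (Ψ c)) w ((0, 1), 0) * fderiv ℝ (fun c => v (Ψ c)) w ((1, 0), 0) -
      fderiv ℝ (fun c => u (Ψ c)) w ((1, 0), 0) * fderiv ℝ (fun c => v (Ψ c)) w ((0, 1), 0) +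
      brk (PS P Θ) (fun z => u (Ψ (w.1, z))) (fun z => v (Ψ (w.1, z))) w.2 := by
  have hfd : ∀ u : E → ℝ, DifferentiableAt ℝ u (Ψ w) →
      fderiv ℝ (fun c => u (Ψ c)) w = (fderiv ℝ u (Ψ w)).comp (fderiv ℝ Ψ w) := fun u hu =>
    (hu.hasFDerivAt.comp w (al_dPsi h hw).hasFDerivAt).fderiv
  have hfz : ∀ u : E → ℝ, DifferentiableAt ℝ u (Ψ w) →
      fderiv ℝ (fun z => u (Ψ (w.1, z))) w.2 = ((fderiv ℝ u (Ψ w)).comp (fderiv ℝ Ψ w)).comp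
        (ContinuousLinearMap.inr ℝ (ℝ × ℝ) ↥(kerS y l)) := by
    intro u hu
    have h1 := hu.hasFDerivAt.comp w (al_dPsi h hw).hasFDerivAt
    have h2 : HasFDerivAt (fun z : ↥(kerS y l) => ((w.1, z) : (ℝ × ℝ) × ↥(kerS y l)))
        (ContinuousLinearMap.inr ℝ (ℝ × ℝ) ↥(kerS y l)) w.2 := hasFDerivAt_prodMk_right w.1 w.2
    exact (HasFDerivAt.comp w.2 (g := fun c => u (Ψ c)) (f := fun z => ((w.1, z) :
      (ℝ × ℝ) × ↥(kerS y l))) h1 h2).fderiv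
  set α := fderiv ℝ u (Ψ w) with hα
  set β := fderiv ℝ v (Ψ w) with hβ
  set T := fderiv ℝ Ψ w with hT
  set δ := (α.comp T).comp (ContinuousLinearMap.inr ℝ (ℝ × ℝ) ↥(kerS y l)) with hδ
  set γ := (β.comp T).comp (ContinuousLinearMap.inr ℝ (ℝ × ℝ) ↥(kerS y l)) with hγ
  set Z := fderiv ℝ (fun e => (Θ e).2) (Ψ w) with hZ
  set X := fderiv ℝ (fun e => (Θ e).1.1) (Ψ w) with hX
  have hz' : ‖w.2‖ < ρ := by
    rw [mem_ball_zero_iff, Prod.norm_def] at hw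
    exact (le_max_right _ _).trans_lt hw
  have hw0 : (((0, 0), w.2) : (ℝ × ℝ) × ↥(kerS y l)) ∈ ball (0 : (ℝ × ℝ) × ↥(kerS y l)) ρ := by
    rw [mem_ball_zero_iff, Prod.norm_def]
    refine max_lt ?_ hz'
    show ‖((0, 0) : ℝ × ℝ)‖ < ρ
    rw [show ((0, 0) : ℝ × ℝ) = 0 from rfl, norm_zero]
    exact h.pos
  -- the last term
  have hlast : brk (PS P Θ) (fun z => u (Ψ (w.1, z))) (fun z => v (Ψ (w.1, z))) w.2 =
      γ (Z (P (Ψ w) (δ.comp Z))) := by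
    have h1 := al_indep hP h (c := w.1) (z := w.2) hw δ γ
    unfold brk at h1 ⊢
    rw [hfz u hu, hfz v hv, PS_apply]
    have h2 := al_fz h hw0
    rw [h2, h2] at h1
    rw [h.base w.2 hz'] at h1
    have h3 : Ψ (w.1, w.2) = Ψ w := rfl
    rw [h3, al_fz h hw, al_fz h hw] at h1
    exact h1.symm
  have hZT : ∀ c : (ℝ × ℝ) × ↥(kerS y l), Z (T c) = c.2 := by
    intro c
    rw [hZ, hT, al_dz h hw, al_DT h hw]
  have hcT : ∀ (δ : ↥(kerS y l) →L[ℝ] ℝ) (c : (ℝ × ℝ) × ↥(kerS y l)), (δ.comp Z) (T c) = δ c.2 :=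
    fun δ c => by rw [ContinuousLinearMap.comp_apply, hZT]
  have hy1 : P (Ψ w) y = T ((1, 0), 0) := h.dy w hw
  have hx1 : P (Ψ w) X = -T ((0, 1), 0) := h.dx w hw
  have hskew := hP.skew (Ψ w) (h.maps w hw)
  have hdecα := al_dec h hw α
  have hdecβ := al_dec h hw β
  have e1 : β (P (Ψ w) α) = α (T ((0, 1), 0)) * β (T ((1, 0), 0)) -
      α (T ((1, 0), 0)) * β (T ((0, 1), 0)) + β (P (Ψ w) (δ.comp Z)) := by
    conv_lhs => rw [hdecα]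
    simp only [map_add, map_smul, smul_eq_mul]
    rw [hy1, hx1, map_neg]
    ring
  have e2 : β (P (Ψ w) (δ.comp Z)) = γ (Z (P (Ψ w) (δ.comp Z))) := by
    rw [hskew]
    have h4 : (δ.comp Z) (P (Ψ w) β) = (δ.comp Z) (P (Ψ w) (γ.comp Z)) := by
      conv_lhs => rw [hdecβ]
      simp only [map_add, map_smul, smul_eq_mul]
      rw [hy1, hx1, map_neg, hcT, hcT, map_zero, neg_zero, mul_zero, mul_zero, zero_add, zero_add]
    rw [h4, ← hskew]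
    rfl
  show β (P (Ψ w) α) = _
  rw [e1, e2, hlast, hfd u hu, hfd v hv]
  rfl

end CoP
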