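import Pool.Agent.Lib.CoP.C.Alg1

/-!
# CoP.C.Alg2 (size 220): the transversal is a local Poisson structure

`smooth`: for `z ∈ ball 0 ρ` in `S`, `(z : E) = Ψ ((0,0),z)` lies in the open set `O = Ψ '' ball` where `Θ` is smooth, so `z ↦ fderiv ℝ (fun e => (Θ e).2) z` is smooth; `P` is smooth; `PS` is a composition
(`ContDiffOn.clm_comp`, `ContinuousLinearMap.compL`, `flip`). `skew`: from `PS_apply` and `LPS.skew`.
`jacobi`: for `U ⊆ ball 0 ρ` open in `S`, `u v w` smooth on `U`: put `O' = {e ∈ O | (Θ e).2 ∈ U}` (open), `û e = u ((Θ e).2)` smooth on `O'`. By `SplitChart.bracket` for `e = Ψ c ∈ O'`, `c = Θ e`: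
`û ∘ Ψ` depends only on the third variable, so `brk P û v̂ e = brk (PS P Θ) u v (Θ e).2`, i.e. `brk P û v̂` and `(brk (PS P Θ) u v) ∘ ζ` agree on `O'`; the double brackets at `(z : E)`, `z ∈ U`, agree as well
(derivatives of functions equal on an open set), and `LPS.jacobi` for `O'` gives the claim.
-/

open Set Filter Metric
open scoped Topology ContDiff

noncomputable section

namespace CoP

variable {E : Type*} [NormedAddCommGroup E] [NormedSpace ℝ E] [FiniteDimensional ℝ E]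
  {P : E → (E →L[ℝ] ℝ) →L[ℝ] E} {r ρ : ℝ} {y l : E →L[ℝ] ℝ}
  {Ψ : (ℝ × ℝ) × ↥(kerS y l) → E} {Θ : E → (ℝ × ℝ) × ↥(kerS y l)}

omit [FiniteDimensional ℝ E] in
private theorem al_mem (h : SplitChart P r ρ y l Ψ Θ) {z : ↥(kerS y l)}
    (hz : z ∈ ball (0 : ↥(kerS y l)) ρ) :
    (((0, 0), z) : (ℝ × ℝ) × ↥(kerS y l)) ∈ ball (0 : (ℝ × ℝ) × ↥(kerS y l)) ρ := by
  rw [mem_ball_zero_iff] at hz ⊢
  rw [Prod.norm_def]
  refine max_lt ?_ hz
  show ‖((0, 0) : ℝ × ℝ)‖ < ρ
  rw [← Prod.zero_eq_mk, norm_zero]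
  exact h.pos

omit [FiniteDimensional ℝ E] in
private theorem al_base (h : SplitChart P r ρ y l Ψ Θ) {z : ↥(kerS y l)}
    (hz : z ∈ ball (0 : ↥(kerS y l)) ρ) : Ψ ((0, 0), z) = (z : E) :=
  h.base z (mem_ball_zero_iff.1 hz)

omit [FiniteDimensional ℝ E] in
private theorem al_smoothL (h : SplitChart P r ρ y l Ψ Θ) :
    ContDiffOn ℝ ∞ (fun z : ↥(kerS y l) => fderiv ℝ (fun e => (Θ e).2) (z : E)) (ball 0 ρ) := by
  have h1 : ContDiffOn ℝ ∞ (fun e => (Θ e).2) (Ψ '' ball 0 ρ) := h.smoothInv.snd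
  have h2 : ContDiffOn ℝ ∞ (fderiv ℝ (fun e => (Θ e).2)) (Ψ '' ball 0 ρ) :=
    h1.fderiv_of_isOpen h.isOpen (by simp)
  have h3 : ContDiffOn ℝ ∞ (fun z : ↥(kerS y l) => (z : E)) (ball 0 ρ) :=
    (kerS y l).subtypeL.contDiff.contDiffOn
  refine h2.comp h3 fun z hz => ?_
  exact ⟨((0, 0), z), al_mem h hz, al_base h hz⟩

/-- smoothness of a bivector field, for a normed space -/
private def SmB {F : Type*} [NormedAddCommGroup F] [NormedSpace ℝ F]
    (P : F → (F →L[ℝ] ℝ) →L[ℝ] F) (s : Set F) : Prop := ContDiffOn ℝ ∞ P s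

omit [FiniteDimensional ℝ E] in
private theorem al_gen {F : Type*} [NormedAddCommGroup F] [NormedSpace ℝ F] {s : Set F}
    {L : F → E →L[ℝ] F} {A : F → (E →L[ℝ] ℝ) →L[ℝ] E} (hL : ContDiffOn ℝ ∞ L s)
    (hA : ContDiffOn ℝ ∞ A s) :
    SmB (fun z => (L z).comp ((A z).comp ((ContinuousLinearMap.compL ℝ E F ℝ).flip (L z)))) s := by
  unfold SmB
  have h5 : ContDiffOn ℝ ∞ (fun z => (ContinuousLinearMap.compL ℝ E F ℝ).flip (L z)) s :=
    ContDiff.comp_contDiffOn (g := fun T : E →L[ℝ] F =>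
      (ContinuousLinearMap.compL ℝ E F ℝ).flip T)
      (by
        have e : IsBoundedLinearMap ℝ (fun T : E →L[ℝ] F =>
            (ContinuousLinearMap.compL ℝ E F ℝ).flip T) :=
          ContinuousLinearMap.isBoundedLinearMap (ContinuousLinearMap.compL ℝ E F ℝ).flip
        exact e.contDiff) hL
  exact hL.clm_comp (hA.clm_comp h5)

private theorem al_bsm {F : Type*} [NormedAddCommGroup F] [NormedSpace ℝ F]
    {P : F → (F →L[ℝ] ℝ) →L[ℝ] F} {s U : Set F} (hP : SmB P s) (hUs : U ⊆ s) (hU : IsOpen U)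
    {f g : F → ℝ} (hf : ContDiffOn ℝ ∞ f U) (hg : ContDiffOn ℝ ∞ g U) :
    DifferentiableOn ℝ (brk P f g) U := by
  have h1 : ContDiffOn ℝ ∞ (fderiv ℝ f) U := hf.fderiv_of_isOpen hU (by simp)
  have h2 : ContDiffOn ℝ ∞ (fderiv ℝ g) U := hg.fderiv_of_isOpen hU (by simp)
  have h3 : ContDiffOn ℝ ∞ P U := ContDiffOn.mono hP hUs
  exact (h2.clm_apply (h3.clm_apply h1)).differentiableOn (by simp)

omit [FiniteDimensional ℝ E] in
private theorem al_smoothPS (hP : LPS P r) (h : SplitChart P r ρ y l Ψ Θ) :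
    SmB (PS P Θ) (ball 0 ρ) := by
  have h1 := al_smoothL h
  have h3 : ContDiffOn ℝ ∞ (fun z : ↥(kerS y l) => (z : E)) (ball 0 ρ) :=
    (kerS y l).subtypeL.contDiff.contDiffOn
  have h4 : ContDiffOn ℝ ∞ (fun z : ↥(kerS y l) => P (z : E)) (ball 0 ρ) := by
    refine hP.smooth.comp h3 fun z hz => ?_
    have := h.maps _ (al_mem h hz)
    rwa [al_base h hz] at this
  exact al_gen h1 h4

/-- brackets of functions of the transversal variable -/
private theorem al_br (hP : LPS P r) (h : SplitChart P r ρ y l Ψ Θ) {U : Set ↥(kerS y l)}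
    (hU : IsOpen U) {u v : ↥(kerS y l) → ℝ} (hu : DifferentiableOn ℝ u U)
    (hv : DifferentiableOn ℝ v U) {e : E} (he : e ∈ Ψ '' ball 0 ρ) (heU : (Θ e).2 ∈ U) :
    brk P (fun x => u ((Θ x).2)) (fun x => v ((Θ x).2)) e = brk (PS P Θ) u v (Θ e).2 := by
  obtain ⟨c, hc, rfl⟩ := he
  rw [h.left_inv c hc] at heU ⊢
  have hζ : DifferentiableAt ℝ (fun x => (Θ x).2) (Ψ c) :=
    ((h.smoothInv.contDiffAt (h.isOpen.mem_nhds ⟨c, hc, rfl⟩)).differentiableAt
      (by simp)).snd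
  have hd : ∀ g : ↥(kerS y l) → ℝ, DifferentiableOn ℝ g U →
      DifferentiableAt ℝ (fun x => g ((Θ x).2)) (Ψ c) := by
    intro g hg
    have h1 : DifferentiableAt ℝ g ((Θ (Ψ c)).2) := by
      rw [h.left_inv c hc]
      exact hg.differentiableAt (hU.mem_nhds heU)
    exact h1.comp (Ψ c) hζ
  have hnear : ∀ᶠ c' in 𝓝 c, c' ∈ ball (0 : (ℝ × ℝ) × ↥(kerS y l)) ρ :=
    isOpen_ball.mem_nhds hc
  have hf : ∀ g : ↥(kerS y l) → ℝ, DifferentiableOn ℝ g U → ∀ s : ℝ × ℝ,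
      fderiv ℝ (fun c' => g ((Θ (Ψ c')).2)) c (s, 0) = 0 := by
    intro g hg s
    have h1 : (fun c' => g ((Θ (Ψ c')).2)) =ᶠ[𝓝 c] fun c' => g c'.2 := by
      filter_upwards [hnear] with c' hc'
      rw [h.left_inv c' hc']
    rw [h1.fderiv_eq]
    have h2 : HasFDerivAt (fun c' : (ℝ × ℝ) × ↥(kerS y l) => g c'.2)
        ((fderiv ℝ g c.2).comp (ContinuousLinearMap.snd ℝ (ℝ × ℝ) ↥(kerS y l))) c := by
      have h3 : HasFDerivAt g (fderiv ℝ g c.2) c.2 :=
        (hg.differentiableAt (hU.mem_nhds heU)).hasFDerivAt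
      exact h3.comp c hasFDerivAt_snd
    rw [h2.fderiv]
    simp
  have hg2 : ∀ g : ↥(kerS y l) → ℝ,
      (fun z => g ((Θ (Ψ (c.1, z))).2)) =ᶠ[𝓝 c.2] g := by
    intro g
    have h1 : Tendsto (fun z : ↥(kerS y l) => (c.1, z)) (𝓝 c.2) (𝓝 c) := by
      have h2 : Continuous fun z : ↥(kerS y l) => (c.1, z) := by fun_prop
      exact h2.tendsto' _ _ rfl
    filter_upwards [h1.eventually hnear] with z hz
    rw [h.left_inv _ hz]
  rw [h.bracket hP hc (hd u hu) (hd v hv), hf u hu, hf u hu, zero_mul, zero_mul, sub_zero,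
    zero_add]
  unfold brk
  rw [(hg2 u).fderiv_eq, (hg2 v).fderiv_eq]

theorem SplitChart.lps (hP : LPS P r) (h : SplitChart P r ρ y l Ψ Θ) : LPS (PS P Θ) ρ := by
  refine ⟨h.pos, al_smoothPS hP h, ?_, ?_⟩
  · intro z hz α β
    rw [PS_apply, PS_apply]
    have hz' : (z : E) ∈ ball (0 : E) r := by
      have := h.maps _ (al_mem h hz)
      rwa [al_base h hz] at this
    exact hP.skew _ hz' (α.comp (fderiv ℝ (fun e => (Θ e).2) (z : E)))
      (β.comp (fderiv ℝ (fun e => (Θ e).2) (z : E)))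
  · intro U hUsub hU u v w hu hv hw z hz
    set O : Set E := Ψ '' ball 0 ρ with hO
    set O' : Set E := O ∩ (fun e => (Θ e).2) ⁻¹' U with hO'
    have hζc : ContDiffOn ℝ ∞ (fun e => (Θ e).2) O := h.smoothInv.snd
    have hO'o : IsOpen O' := hζc.continuousOn.isOpen_inter_preimage h.isOpen hU
    have hsub : O' ⊆ ball (0 : E) r := by
      rintro _ ⟨⟨c, hc, rfl⟩, _⟩
      exact h.maps c hc
    have hsm : ∀ g : ↥(kerS y l) → ℝ, ContDiffOn ℝ ∞ g U →
        ContDiffOn ℝ ∞ (fun e => g ((Θ e).2)) O' := by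
      intro g hg
      exact hg.comp (hζc.mono inter_subset_left) fun e he => he.2
    have hzb := hUsub hz
    have hzO : (z : E) ∈ O := ⟨((0, 0), z), al_mem h hzb, al_base h hzb⟩
    have hζz : (Θ (z : E)).2 = z := by
      have h1 := h.left_inv _ (al_mem h hzb)
      rw [al_base h hzb] at h1
      rw [h1]
    have hzO' : (z : E) ∈ O' := ⟨hzO, by rw [mem_preimage, hζz]; exact hz⟩
    -- brackets on the transversal are smooth
    have hbsm : ∀ f g : ↥(kerS y l) → ℝ, ContDiffOn ℝ ∞ f U → ContDiffOn ℝ ∞ g U →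
        DifferentiableOn ℝ (brk (PS P Θ) f g) U := by
      intro f g hf hg
      exact al_bsm (al_smoothPS hP h) hUsub hU hf hg
    have hdbl : ∀ f g k : ↥(kerS y l) → ℝ, ContDiffOn ℝ ∞ f U → ContDiffOn ℝ ∞ g U →
        ContDiffOn ℝ ∞ k U →
        brk P (fun x => f ((Θ x).2)) (brk P (fun x => g ((Θ x).2)) (fun x => k ((Θ x).2))) z =
          brk (PS P Θ) f (brk (PS P Θ) g k) z := by
      intro f g k hf hg hk
      have h1 : brk P (fun x => g ((Θ x).2)) (fun x => k ((Θ x).2)) =ᶠ[𝓝 (z : E)]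
          fun x => brk (PS P Θ) g k ((Θ x).2) := by
        filter_upwards [hO'o.mem_nhds hzO'] with x hx
        exact al_br hP h hU (hg.differentiableOn (by simp)) (hk.differentiableOn (by simp))
          hx.1 hx.2
      have h2 : brk P (fun x => f ((Θ x).2))
          (brk P (fun x => g ((Θ x).2)) (fun x => k ((Θ x).2))) z =
          brk P (fun x => f ((Θ x).2)) (fun x => brk (PS P Θ) g k ((Θ x).2)) z := by
        unfold brk at h1 ⊢
        rw [h1.fderiv_eq]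
      rw [h2, al_br hP h hU (hf.differentiableOn (by simp)) (hbsm g k hg hk) hzO
        (by rw [hζz]; exact hz), hζz]
    have hj := hP.jacobi O' hsub hO'o _ _ _ (hsm u hu) (hsm v hv) (hsm w hw) z hzO'
    rw [hdbl u v w hu hv hw, hdbl v w u hv hw hu, hdbl w u v hw hu hv] at hj
    exact hj

end CoP
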