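import Pool.Agent.Lib.CoP.C.Alg1

/-!
# CoP.C.Alg3 (module C2, size 200): coisotropy passes to the transversal

`z : S`, `‖z‖ < ρ`, `(z:E) ∈ V`, `w = ((0,0),z)`, `Ψ w = z`. `T = fderiv ℝ Ψ w`, `D = fderiv ℝ Θ z`, inverse to each other (`fderiv_comp`). `T ((0,0),s) = s` (derivative of `base` along `S`), `T ((1,0),0) = P z y`,
`T ((0,1),0) = -P z dx` with `dx = fderiv (fun e => (Θ e).1.1) z`. `y (T c) = c.1.2` (`hy`). For `v ∈ V` write `D v = ((a,b),s)`, `v = T (D v) = a • P z y - b • P z dx + s`.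
* Case A (`y = 0` on `V`): `b = y v = 0`, `P z y ∈ V` (`Cois`), so `s = v - a • P z y ∈ V`. Hence for `β` vanishing on `V ∩ S` the functional `β ∘ Dζ` (`Dζ = snd ∘ D`) vanishes on `V`; so `v' := P z (β ∘ Dζ) ∈ V`
  and `PS P Θ z β = Dζ v' = s'` is in `V` by the same computation for `v'`.
* Case B (`P x α = 0` for `x ∈ V`, `α ∈ V^o`): all `P x α ∈ V` for `x ∈ V` (skewness: `β (P x α) = -α (P x β) = 0` for `β ∈ V^o`, and a finite dimensional subspace is the common kernel of its annihilator: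
  `Submodule.dualAnnihilator`/Hahn-Banach `Submodule.exists_le_ker_of_notMem` or `geometric_hahn_banach`), so again `s ∈ V`, `β ∘ Dζ` vanishes on `V`, and `PS P Θ z β = Dζ (P z (β ∘ Dζ)) = 0`.
-/

open Set Filter Metric
open scoped Topology ContDiff

noncomputable section

namespace CoP

variable {E : Type*} [NormedAddCommGroup E] [NormedSpace ℝ E] [FiniteDimensional ℝ E]
  {P : E → (E →L[ℝ] ℝ) →L[ℝ] E} {r ρ : ℝ} {y l : E →L[ℝ] ℝ}
  {Ψ : (ℝ × ℝ) × ↥(kerS y l) → E} {Θ : E → (ℝ × ℝ) × ↥(kerS y l)}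

/-- In case B all Hamiltonian vectors are tangent to `V`. -/
theorem tangent_of_zero (hP : LPS P r) (V : Submodule ℝ E) {x : E} (hx : x ∈ ball (0 : E) r)
    (h0 : ∀ α : E →L[ℝ] ℝ, (∀ v ∈ V, α v = 0) → P x α = 0) (α : E →L[ℝ] ℝ) : P x α ∈ V := by
  by_contra hn
  obtain ⟨f, hf, hV⟩ := Submodule.exists_le_ker_of_notMem hn
  have h1 : ∀ v ∈ V, (LinearMap.toContinuousLinearMap f) v = 0 := fun v hv => hV hv
  have h2 := h0 (LinearMap.toContinuousLinearMap f) h1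
  have h3 := hP.skew x hx α (LinearMap.toContinuousLinearMap f)
  rw [h2, map_zero, neg_zero] at h3
  exact hf h3

private theorem alg3_ball {z : ↥(kerS y l)} (hz : ‖z‖ < ρ) :
    (((0, 0), z) : (ℝ × ℝ) × ↥(kerS y l)) ∈ ball (0 : (ℝ × ℝ) × ↥(kerS y l)) ρ := by
  rw [mem_ball_zero_iff, Prod.norm_def]
  refine max_lt ?_ hz
  have h0 : 0 < ρ := (norm_nonneg z).trans_lt hz
  simpa using h0

private theorem alg3_dec (h : SplitChart P r ρ y l Ψ Θ) {z : ↥(kerS y l)} (hz : ‖z‖ < ρ) (v : E) :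
    (((fderiv ℝ Θ (z : E) v).2 : ↥(kerS y l)) : E) = v - (fderiv ℝ Θ (z : E) v).1.1 • P (z : E) y +
      (fderiv ℝ Θ (z : E) v).1.2 • P (z : E) (fderiv ℝ (fun e => (Θ e).1.1) (z : E)) ∧
    y v = (fderiv ℝ Θ (z : E) v).1.2 ∧
    fderiv ℝ (fun e => (Θ e).2) (z : E) v = (fderiv ℝ Θ (z : E) v).2 := by
  have hw := alg3_ball (l := l) hz
  set w : (ℝ × ℝ) × ↥(kerS y l) := ((0, 0), z) with hw'
  have hb : Ψ w = (z : E) := h.base z hz
  obtain ⟨-, hTD⟩ := h.fderiv_comp hw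
  have hΨ : DifferentiableAt ℝ Ψ w :=
    (h.smooth.differentiableOn (by simp)).differentiableAt (isOpen_ball.mem_nhds hw)
  have hΘ : DifferentiableAt ℝ Θ (z : E) := by
    refine (h.smoothInv.differentiableOn (by simp)).differentiableAt (h.isOpen.mem_nhds ?_)
    exact ⟨w, hw, hb⟩
  have hdy := h.dy w hw
  have hdx := h.dx w hw
  rw [hb] at hTD hdy hdx
  -- the derivative along the transversal
  have hTs : ∀ s : ↥(kerS y l), fderiv ℝ Ψ w ((0, 0), s) = (s : E) := by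
    intro s
    have h1 : HasFDerivAt (fun z' : ↥(kerS y l) => (((0, 0), z') : (ℝ × ℝ) × ↥(kerS y l)))
        (ContinuousLinearMap.inr ℝ (ℝ × ℝ) ↥(kerS y l)) z :=
      (ContinuousLinearMap.inr ℝ (ℝ × ℝ) ↥(kerS y l)).hasFDerivAt
    have h3 : HasFDerivAt (fun z' : ↥(kerS y l) => Ψ ((0, 0), z'))
        ((fderiv ℝ Ψ w).comp (ContinuousLinearMap.inr ℝ (ℝ × ℝ) ↥(kerS y l))) z :=
      hΨ.hasFDerivAt.comp z h1
    have h4 : (fun z' : ↥(kerS y l) => Ψ ((0, 0), z')) =ᶠ[𝓝 z] fun z' => (z' : E) := by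
      have h5 : {z' : ↥(kerS y l) | ‖z'‖ < ρ} ∈ 𝓝 z :=
        (isOpen_lt continuous_norm continuous_const).mem_nhds hz
      filter_upwards [h5] with z' hz'
      exact h.base z' hz'
    have h6 : HasFDerivAt (fun z' : ↥(kerS y l) => (z' : E)) (kerS y l).subtypeL z :=
      (kerS y l).subtypeL.hasFDerivAt
    have h7 := (h3.congr_of_eventuallyEq h4.symm).unique h6
    have h8 := congrArg (fun A : ↥(kerS y l) →L[ℝ] E => A s) h7
    exact h8
  have hTc : ∀ c : (ℝ × ℝ) × ↥(kerS y l), fderiv ℝ Ψ w c = c.1.1 • P (z : E) y -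
      c.1.2 • P (z : E) (fderiv ℝ (fun e => (Θ e).1.1) (z : E)) + (c.2 : E) := by
    rintro ⟨⟨a, b⟩, s⟩
    have h1 : (((a, b), s) : (ℝ × ℝ) × ↥(kerS y l)) =
        a • ((1, 0), 0) + b • ((0, 1), 0) + ((0, 0), s) := by
      simp
    rw [h1, map_add, map_add, map_smul, map_smul, hTs, ← hdy, hdx]
    simp [sub_eq_add_neg]
  have hv : fderiv ℝ Ψ w (fderiv ℝ Θ (z : E) v) = v := by
    have := congrArg (fun A : E →L[ℝ] E => A v) hTD
    exact this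
  refine ⟨?_, ?_, ?_⟩
  · have h1 := hTc (fderiv ℝ Θ (z : E) v)
    rw [hv] at h1
    nth_rewrite 2 [h1]
    abel
  · have h1 : HasFDerivAt (fun c => y (Ψ c)) (y.comp (fderiv ℝ Ψ w)) w :=
      y.hasFDerivAt.comp w hΨ.hasFDerivAt
    have h2 : (fun c => y (Ψ c)) =ᶠ[𝓝 w] fun c => c.1.2 := by
      filter_upwards [isOpen_ball.mem_nhds hw] with c hc
      exact h.hy c hc
    have h3 : HasFDerivAt (fun c : (ℝ × ℝ) × ↥(kerS y l) => c.1.2)
        ((ContinuousLinearMap.snd ℝ ℝ ℝ).comp (ContinuousLinearMap.fst ℝ (ℝ × ℝ) ↥(kerS y l))) w :=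
      ((ContinuousLinearMap.snd ℝ ℝ ℝ).comp
        (ContinuousLinearMap.fst ℝ (ℝ × ℝ) ↥(kerS y l))).hasFDerivAt
    have h4 := (h1.congr_of_eventuallyEq h2.symm).unique h3
    have h5 := congrArg (fun A : (ℝ × ℝ) × ↥(kerS y l) →L[ℝ] ℝ => A (fderiv ℝ Θ (z : E) v)) h4
    have h6 : y (fderiv ℝ Ψ w (fderiv ℝ Θ (z : E) v)) = (fderiv ℝ Θ (z : E) v).1.2 := h5
    rwa [hv] at h6
  · have h1 : HasFDerivAt (fun e => (Θ e).2)
        ((ContinuousLinearMap.snd ℝ (ℝ × ℝ) ↥(kerS y l)).comp (fderiv ℝ Θ (z : E))) (z : E) :=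
      (ContinuousLinearMap.snd ℝ (ℝ × ℝ) ↥(kerS y l)).hasFDerivAt.comp (z : E) hΘ.hasFDerivAt
    rw [h1.fderiv]
    rfl

private theorem alg3_maps (h : SplitChart P r ρ y l Ψ Θ) {z : ↥(kerS y l)} (hz : ‖z‖ < ρ) :
    (z : E) ∈ ball (0 : E) r := by
  have h1 := h.maps _ (alg3_ball (l := l) hz)
  rwa [h.base z hz] at h1

theorem SplitChart.cois_A (hP : LPS P r) (h : SplitChart P r ρ y l Ψ Θ) (V : Submodule ℝ E)
    (hc : Cois P V r) (hy : ∀ v ∈ V, y v = 0) :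
    Cois (PS P Θ) (V.comap (kerS y l).subtype) ρ := by
  intro z hz hzb β hβ
  have hzV : (z : E) ∈ V := hz
  have hzn : ‖z‖ < ρ := by simpa using hzb
  have hzr := alg3_maps h hzn
  have key : ∀ v ∈ V, ((fderiv ℝ (fun e => (Θ e).2) (z : E) v : ↥(kerS y l)) : E) ∈ V := by
    intro v hv
    obtain ⟨h1, h2, h3⟩ := alg3_dec h hzn v
    rw [h3, h1, ← h2, hy v hv, zero_smul, add_zero]
    exact V.sub_mem hv (V.smul_mem _ (hc _ hzV hzr y hy))
  rw [PS_apply]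
  refine key _ (hc _ hzV hzr _ fun v hv => ?_)
  exact hβ _ (key v hv)

theorem SplitChart.cois_B (hP : LPS P r) (h : SplitChart P r ρ y l Ψ Θ) (V : Submodule ℝ E)
    (h0 : ∀ x ∈ V, x ∈ ball (0 : E) r → ∀ α : E →L[ℝ] ℝ, (∀ v ∈ V, α v = 0) → P x α = 0) :
    Cois (PS P Θ) (V.comap (kerS y l).subtype) ρ := by
  intro z hz hzb β hβ
  have hzV : (z : E) ∈ V := hz
  have hzn : ‖z‖ < ρ := by simpa using hzb
  have hzr := alg3_maps h hzn
  have key : ∀ v ∈ V, ((fderiv ℝ (fun e => (Θ e).2) (z : E) v : ↥(kerS y l)) : E) ∈ V := by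
    intro v hv
    obtain ⟨h1, h2, h3⟩ := alg3_dec h hzn v
    rw [h3, h1]
    have ht := tangent_of_zero hP V hzr (h0 _ hzV hzr)
    exact V.add_mem (V.sub_mem hv (V.smul_mem _ (ht _))) (V.smul_mem _ (ht _))
  rw [PS_apply, h0 _ hzV hzr (β.comp (fderiv ℝ (fun e => (Θ e).2) (z : E)))
    (fun v hv => hβ _ (key v hv)), map_zero]
  exact Submodule.zero_mem _

end CoP
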