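import Pool.Agent.Lib.CoP.Defs

/-!
# Local normal form: definitions
-/

open Set Filter Metric
open scoped Topology ContDiff

noncomputable section

namespace CoP

variable {E : Type*} [NormedAddCommGroup E] [NormedSpace ℝ E]

/-- The transversal `ker y ∩ ker l`. -/
def kerS (y l : E →L[ℝ] ℝ) : Submodule ℝ E := LinearMap.ker y.toLinearMap ⊓ LinearMap.ker l.toLinearMap

/-- Splitting coordinates: `Ψ ((a, b), z)`, `z ∈ ker y ∩ ker l`, with `{b, ·} = ∂_a`, `{a, ·} = -∂_b`. -/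
structure SplitChart (P : E → (E →L[ℝ] ℝ) →L[ℝ] E) (r ρ : ℝ) (y l : E →L[ℝ] ℝ)
    (Ψ : (ℝ × ℝ) × ↥(kerS y l) → E) (Θ : E → (ℝ × ℝ) × ↥(kerS y l)) : Prop where
  pos : 0 < ρ
  smooth : ContDiffOn ℝ ∞ Ψ (ball 0 ρ)
  isOpen : IsOpen (Ψ '' ball 0 ρ)
  smoothInv : ContDiffOn ℝ ∞ Θ (Ψ '' ball 0 ρ)
  left_inv : ∀ w ∈ ball (0 : (ℝ × ℝ) × ↥(kerS y l)) ρ, Θ (Ψ w) = w
  maps : ∀ w ∈ ball (0 : (ℝ × ℝ) × ↥(kerS y l)) ρ, Ψ w ∈ ball (0 : E) r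
  base : ∀ z : ↥(kerS y l), ‖z‖ < ρ → Ψ ((0, 0), z) = z
  hy : ∀ w ∈ ball (0 : (ℝ × ℝ) × ↥(kerS y l)) ρ, y (Ψ w) = w.1.2
  dy : ∀ w ∈ ball (0 : (ℝ × ℝ) × ↥(kerS y l)) ρ, P (Ψ w) y = fderiv ℝ Ψ w ((1, 0), 0)
  dx : ∀ w ∈ ball (0 : (ℝ × ℝ) × ↥(kerS y l)) ρ,
    P (Ψ w) (fderiv ℝ (fun e => (Θ e).1.1) (Ψ w)) = -fderiv ℝ Ψ w ((0, 1), 0)

/-- The induced bivector field on the transversal. -/
def PS (P : E → (E →L[ℝ] ℝ) →L[ℝ] E) {y l : E →L[ℝ] ℝ} (Θ : E → (ℝ × ℝ) × ↥(kerS y l))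
    (z : ↥(kerS y l)) : (↥(kerS y l) →L[ℝ] ℝ) →L[ℝ] ↥(kerS y l) :=
  (fderiv ℝ (fun e => (Θ e).2) (z : E)).comp ((P (z : E)).comp
    ((ContinuousLinearMap.compL ℝ E ↥(kerS y l) ℝ).flip (fderiv ℝ (fun e => (Θ e).2) (z : E))))

theorem PS_apply (P : E → (E →L[ℝ] ℝ) →L[ℝ] E) {y l : E →L[ℝ] ℝ}
    (Θ : E → (ℝ × ℝ) × ↥(kerS y l)) (z : ↥(kerS y l)) (β : ↥(kerS y l) →L[ℝ] ℝ) :
    PS P Θ z β = fderiv ℝ (fun e => (Θ e).2) (z : E)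
      (P (z : E) (β.comp (fderiv ℝ (fun e => (Θ e).2) (z : E)))) := rfl

/-- Adapted Darboux parametrisation of a piece of a symplectic leaf. -/
structure NF (P : E → (E →L[ℝ] ℝ) →L[ℝ] E) (V : Submodule ℝ E) (r' : ℝ) (n : ℕ) (p : E) (R : ℝ)
    (j : Z n → E) : Prop where
  pos : 0 < R
  mem : p ∈ V
  smooth : ContDiffOn ℝ ∞ j (ball 0 R)
  inj : InjOn j (ball 0 R)
  zero : j 0 = p
  maps : ∀ z ∈ ball (0 : Z n) R, ‖j z‖ < r'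
  bracket : ∀ z ∈ ball (0 : Z n) R, ∀ u v : E → ℝ, DifferentiableAt ℝ u (j z) →
    DifferentiableAt ℝ v (j z) → brk P u v (j z) = pb (fun w => u (j w)) (fun w => v (j w)) z
  real : ∀ q, ((q, 0) : Z n) ∈ ball (0 : Z n) R → j (q, 0) ∈ V

/-- The coisotropy condition for the linear subspace `V`. -/
def Cois (P : E → (E →L[ℝ] ℝ) →L[ℝ] E) (V : Submodule ℝ E) (r : ℝ) : Prop :=
  ∀ x ∈ V, x ∈ ball (0 : E) r → ∀ α : E →L[ℝ] ℝ, (∀ v ∈ V, α v = 0) → P x α ∈ V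

end CoP
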