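import Pool.Agent.Lib.CoP.C.Alg2

/-!
# CoP.C.Step (size 300): one induction step of the normal form

`j (Q, K) = Ψ ((Q 0, K 0), j1 (Fin.tail Q, Fin.tail K))` on `ball 0 R`, `R = min R1 (something small)`: for `‖(Q,K)‖ < R` all of `|Q 0|`, `|K 0|`, `‖(tail Q, tail K)‖` are `< R` (sup norm), `R ≤ R1`, and `‖j1‖ < r''`.
Choose `r'' > 0` with `r'' ≤ ρ`, and `Ψ (ball 0 r'') ⊆ ball 0 r'` (continuity at `0`, `Ψ 0 = 0`), and `R ≤ min R1 r''`.
* smooth: composition (`Fin.tail`, evaluation: continuous linear maps on `Z (n+1)`). inj: `Θ` is a left inverse of `Ψ`, `j1` is injective, `Fin.cons_self_tail`. `j 0 = Ψ ((0,0), p1) = p1` (`base`).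
* real: `j (q, 0) = Ψ ((q 0, 0), j1 (tail q, 0))`, `j1 (tail q, 0) ∈ V` by `NF.real` (`comap`), tangency hypothesis `hT`.
* bracket: `z = (Q,K)`, `w = ((Q 0, K 0), j1 ..)`: `SplitChart.bracket` at `w`; the term `brk (PS P Θ) (u(Ψ(w.1,·))) (v(Ψ(w.1,·))) (j1 ..)` is `pb` of the compositions with `j1` by `NF.bracket` for `j1` (the functions
  `c ↦ u (Ψ (w.1, c))` are differentiable at `w.2`); `pb` on `Z (n+1)`: `Fin.sum_univ_succ`; the partial derivatives: `fderiv ℝ (fun z => u (j z)) z (Pi.single 0 1, 0) = fderiv ℝ (fun c => u (Ψ c)) w ((1,0),0)`, `(0, Pi.single 0 1)` ↦ `((0,1),0)`, and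
  `(Pi.single i.succ 1, 0)` gives `gQ (fun z1 => u (Ψ (w.1, j1 z1))) (tail Q, tail K) i` (chain rule with the linear map `(Q,K) ↦ ((Q 0, K 0), (tail Q, tail K))`).
-/

open Set Filter Metric
open scoped Topology ContDiff

noncomputable section

namespace CoP

variable {E : Type*} [NormedAddCommGroup E] [NormedSpace ℝ E] [FiniteDimensional ℝ E]
  {P : E → (E →L[ℝ] ℝ) →L[ℝ] E} {r ρ : ℝ} {y l : E →L[ℝ] ℝ}
  {Ψ : (ℝ × ℝ) × ↥(kerS y l) → E} {Θ : E → (ℝ × ℝ) × ↥(kerS y l)}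

/-- separate the first pair of coordinates -/
private def stpA (n : ℕ) : Z (n + 1) →L[ℝ] (ℝ × ℝ) × Z n :=
  (((ContinuousLinearMap.proj (R := ℝ) (φ := fun _ : Fin (n + 1) => ℝ) 0).comp
      (ContinuousLinearMap.fst ℝ (Fin (n + 1) → ℝ) (Fin (n + 1) → ℝ))).prod
    ((ContinuousLinearMap.proj (R := ℝ) (φ := fun _ : Fin (n + 1) => ℝ) 0).comp
      (ContinuousLinearMap.snd ℝ (Fin (n + 1) → ℝ) (Fin (n + 1) → ℝ)))).prod
  (((ContinuousLinearMap.pi fun i : Fin n =>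
      ContinuousLinearMap.proj (R := ℝ) (φ := fun _ : Fin (n + 1) => ℝ) i.succ).comp
      (ContinuousLinearMap.fst ℝ (Fin (n + 1) → ℝ) (Fin (n + 1) → ℝ))).prod
    ((ContinuousLinearMap.pi fun i : Fin n =>
      ContinuousLinearMap.proj (R := ℝ) (φ := fun _ : Fin (n + 1) => ℝ) i.succ).comp
      (ContinuousLinearMap.snd ℝ (Fin (n + 1) → ℝ) (Fin (n + 1) → ℝ))))

private theorem stpA_apply (n : ℕ) (z : Z (n + 1)) :
    stpA n z = ((z.1 0, z.2 0), (fun i => z.1 i.succ, fun i => z.2 i.succ)) := rfl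

private theorem stpA_inj (n : ℕ) {z z' : Z (n + 1)} (h : stpA n z = stpA n z') : z = z' := by
  rw [stpA_apply, stpA_apply, Prod.mk.injEq, Prod.mk.injEq, Prod.mk.injEq] at h
  obtain ⟨⟨h1, h2⟩, h3, h4⟩ := h
  refine Prod.ext (funext fun i => ?_) (funext fun i => ?_)
  · refine Fin.cases h1 (fun i => congrFun h3 i) i
  · refine Fin.cases h2 (fun i => congrFun h4 i) i

private theorem stpA_fst (n : ℕ) (z : Z (n + 1)) : ‖(stpA n z).1‖ ≤ ‖z‖ := by
  rw [stpA_apply]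
  refine max_le ?_ ?_
  · exact (norm_le_pi_norm z.1 0).trans (norm_fst_le z)
  · exact (norm_le_pi_norm z.2 0).trans (norm_snd_le z)

private theorem stpA_snd (n : ℕ) (z : Z (n + 1)) : ‖(stpA n z).2‖ ≤ ‖z‖ := by
  rw [stpA_apply]
  refine max_le ?_ ?_
  · refine (pi_norm_le_iff_of_nonneg (norm_nonneg _)).2 fun i => ?_
    exact (norm_le_pi_norm z.1 i.succ).trans (norm_fst_le z)
  · refine (pi_norm_le_iff_of_nonneg (norm_nonneg _)).2 fun i => ?_
    exact (norm_le_pi_norm z.2 i.succ).trans (norm_snd_le z)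

private theorem stpA_e0 (n : ℕ) :
    (Pi.single (0 : Fin (n + 1)) (1 : ℝ) : Fin (n + 1) → ℝ) 0 = 1 := Pi.single_eq_same _ _

private theorem stpA_e1 (n : ℕ) (i : Fin n) :
    (Pi.single (0 : Fin (n + 1)) (1 : ℝ) : Fin (n + 1) → ℝ) i.succ = 0 :=
  Pi.single_eq_of_ne (Fin.succ_ne_zero i) _

private theorem stpA_e2 (n : ℕ) (i : Fin n) :
    (Pi.single i.succ (1 : ℝ) : Fin (n + 1) → ℝ) 0 = 0 :=
  Pi.single_eq_of_ne (Fin.succ_ne_zero i).symm _

private theorem stpA_Q0 (n : ℕ) : stpA n (Pi.single 0 1, 0) = ((1, 0), 0) := by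
  rw [stpA_apply]
  refine Prod.ext (Prod.ext ?_ rfl) (Prod.ext (funext fun i => ?_) rfl)
  · exact stpA_e0 n
  · exact stpA_e1 n i

private theorem stpA_P0 (n : ℕ) : stpA n (0, Pi.single 0 1) = ((0, 1), 0) := by
  rw [stpA_apply]
  refine Prod.ext (Prod.ext rfl ?_) (Prod.ext rfl (funext fun i => ?_))
  · exact stpA_e0 n
  · exact stpA_e1 n i

private theorem stpA_tail (n : ℕ) (i : Fin n) :
    (fun k : Fin n => (Pi.single i.succ (1 : ℝ) : Fin (n + 1) → ℝ) k.succ) = Pi.single i 1 := by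
  funext k
  by_cases h : k = i
  · subst h
    rw [Pi.single_eq_same, Pi.single_eq_same]
  · rw [Pi.single_eq_of_ne h, Pi.single_eq_of_ne (fun h' => h (Fin.succ_injective _ h'))]

private theorem stpA_Qs (n : ℕ) (i : Fin n) :
    stpA n (Pi.single i.succ 1, 0) = (0, (Pi.single i 1, 0)) := by
  rw [stpA_apply]
  refine Prod.ext (Prod.ext ?_ rfl) (Prod.ext (stpA_tail n i) rfl)
  exact stpA_e2 n i

private theorem stpA_Ps (n : ℕ) (i : Fin n) :
    stpA n (0, Pi.single i.succ 1) = (0, (0, Pi.single i 1)) := by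
  rw [stpA_apply]
  refine Prod.ext (Prod.ext rfl ?_) (Prod.ext rfl (stpA_tail n i))
  exact stpA_e2 n i

theorem SplitChart.step (hP : LPS P r) (h : SplitChart P r ρ y l Ψ Θ) (V : Submodule ℝ E)
    (hT : ∀ (a : ℝ) (z : ↥(kerS y l)), |a| < ρ → ‖z‖ < ρ → (z : E) ∈ V → Ψ ((a, 0), z) ∈ V)
    {r' : ℝ} (hr' : 0 < r') : ∃ r1 : ℝ, 0 < r1 ∧ r1 ≤ ρ ∧
      ∀ (n : ℕ) (p : ↥(kerS y l)) (R : ℝ) (j : Z n → ↥(kerS y l)),
        NF (PS P Θ) (V.comap (kerS y l).subtype) r1 n p R j →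
        ∃ (R' : ℝ) (j' : Z (n + 1) → E), NF P V r' (n + 1) (p : E) R' j' := by
  have hΨ0 : Ψ 0 = 0 := by
    have := h.base 0 (by rw [norm_zero]; exact h.pos)
    exact this
  have hcont : ContinuousAt Ψ 0 :=
    h.smooth.continuousOn.continuousAt (ball_mem_nhds 0 h.pos)
  obtain ⟨δ, hδ, hδ'⟩ := Metric.continuousAt_iff.1 hcont r' hr'
  refine ⟨min δ ρ, lt_min hδ h.pos, min_le_right _ _, ?_⟩
  intro n p R j hj
  obtain ⟨r1, hr1⟩ : ∃ r1, r1 = min δ ρ := ⟨_, rfl⟩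
  rw [← hr1] at hj
  have hr1pos : 0 < r1 := by rw [hr1]; exact lt_min hδ h.pos
  have hr1δ : r1 ≤ δ := by rw [hr1]; exact min_le_left _ _
  have hr1ρ : r1 ≤ ρ := by rw [hr1]; exact min_le_right _ _
  have hw1 : ∀ z ∈ ball (0 : Z (n + 1)) (min R r1), (stpA n z).2 ∈ ball (0 : Z n) R := by
    intro z hz
    rw [mem_ball_zero_iff] at hz ⊢
    exact lt_of_le_of_lt (stpA_snd n z) (lt_of_lt_of_le hz (min_le_left _ _))
  have hw2 : ∀ z ∈ ball (0 : Z (n + 1)) (min R r1),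
      (((stpA n z).1, j (stpA n z).2) : (ℝ × ℝ) × ↥(kerS y l)) ∈
        ball (0 : (ℝ × ℝ) × ↥(kerS y l)) r1 := by
    intro z hz
    have h1 := hj.maps _ (hw1 z hz)
    rw [mem_ball_zero_iff] at hz ⊢
    rw [Prod.norm_mk]
    exact max_lt (lt_of_le_of_lt (stpA_fst n z) (lt_of_lt_of_le hz (min_le_right _ _))) h1
  have hw3 : ∀ z ∈ ball (0 : Z (n + 1)) (min R r1),
      (((stpA n z).1, j (stpA n z).2) : (ℝ × ℝ) × ↥(kerS y l)) ∈
        ball (0 : (ℝ × ℝ) × ↥(kerS y l)) ρ := fun z hz => ball_subset_ball hr1ρ (hw2 z hz)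
  refine ⟨min R r1, fun z => Ψ ((stpA n z).1, j (stpA n z).2), ?_⟩
  refine ⟨lt_min hj.pos hr1pos, hj.mem, ?_, ?_, ?_, ?_, ?_, ?_⟩
  · -- smooth
    refine h.smooth.comp (ContDiffOn.prodMk ?_ ?_) hw3
    · exact (contDiff_fst.comp (stpA n).contDiff).contDiffOn
    · exact hj.smooth.comp (contDiff_snd.comp (stpA n).contDiff).contDiffOn hw1
  · -- injective
    intro z hz z' hz' hzz
    have h1 := congrArg Θ hzz
    simp only at h1
    rw [h.left_inv _ (hw3 z hz), h.left_inv _ (hw3 z' hz'), Prod.mk.injEq] at h1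
    have h2 := hj.inj (hw1 z hz) (hw1 z' hz') h1.2
    exact stpA_inj n (Prod.ext h1.1 h2)
  · -- zero
    have h1 : stpA n 0 = ((0, 0), 0) := map_zero _
    have h2 : ‖p‖ < ρ := by
      have h3 := hj.maps 0 (mem_ball_self hj.pos)
      rw [hj.zero] at h3
      exact lt_of_lt_of_le h3 hr1ρ
    simp only [h1]
    rw [hj.zero]
    exact h.base p h2
  · -- maps
    intro z hz
    have h1 := hw2 z hz
    rw [mem_ball] at h1
    have h2 := hδ' (lt_of_lt_of_le h1 hr1δ)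
    rw [hΨ0, dist_zero_right] at h2
    exact h2
  · -- bracket
    intro z hz u v hu hv
    obtain ⟨w, hw⟩ : ∃ w : (ℝ × ℝ) × ↥(kerS y l), w = ((stpA n z).1, j (stpA n z).2) := ⟨_, rfl⟩
    have hwρ : w ∈ ball (0 : (ℝ × ℝ) × ↥(kerS y l)) ρ := by rw [hw]; exact hw3 z hz
    have hΨw : DifferentiableAt ℝ Ψ w :=
      (h.smooth.contDiffAt (isOpen_ball.mem_nhds hwρ)).differentiableAt (by simp)
    have hjd : DifferentiableAt ℝ j (stpA n z).2 :=
      (hj.smooth.contDiffAt (isOpen_ball.mem_nhds (hw1 z hz))).differentiableAt (by simp)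
    -- derivative of `u ∘ j'`
    have hmk : HasFDerivAt (fun c : ↥(kerS y l) => ((w.1, c) : (ℝ × ℝ) × ↥(kerS y l)))
        ((0 : ↥(kerS y l) →L[ℝ] ℝ × ℝ).prod (ContinuousLinearMap.id ℝ _)) w.2 :=
      (hasFDerivAt_const w.1 w.2).prodMk (hasFDerivAt_id w.2)
    have hG : HasFDerivAt (fun z : Z (n + 1) =>
        (((stpA n z).1, j (stpA n z).2) : (ℝ × ℝ) × ↥(kerS y l)))
        (((ContinuousLinearMap.fst ℝ (ℝ × ℝ) (Z n)).comp (stpA n)).prod
          ((fderiv ℝ j (stpA n z).2).comp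
            ((ContinuousLinearMap.snd ℝ (ℝ × ℝ) (Z n)).comp (stpA n)))) z :=
      (((ContinuousLinearMap.fst ℝ (ℝ × ℝ) (Z n)).comp (stpA n)).hasFDerivAt).prodMk
        (hjd.hasFDerivAt.comp z
          (((ContinuousLinearMap.snd ℝ (ℝ × ℝ) (Z n)).comp (stpA n)).hasFDerivAt))
    have key : ∀ f : E → ℝ, DifferentiableAt ℝ f (Ψ w) →
        DifferentiableAt ℝ (fun c : ↥(kerS y l) => f (Ψ (w.1, c))) w.2 ∧
        (∀ x : Z (n + 1), fderiv ℝ (fun z => f (Ψ ((stpA n z).1, j (stpA n z).2))) z x =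
          fderiv ℝ (fun c => f (Ψ c)) w
            ((stpA n x).1, fderiv ℝ j (stpA n z).2 (stpA n x).2)) ∧
        ∀ x : Z n, fderiv ℝ (fun z1 => f (Ψ (w.1, j z1))) (stpA n z).2 x =
          fderiv ℝ (fun c => f (Ψ c)) w (0, fderiv ℝ j (stpA n z).2 x) := by
      intro f hf
      have hU : HasFDerivAt (fun c => f (Ψ c)) (fderiv ℝ (fun c => f (Ψ c)) w) w :=
        (DifferentiableAt.comp w hf hΨw).hasFDerivAt
      have h2 : HasFDerivAt (fun c : ↥(kerS y l) => f (Ψ (w.1, c)))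
          ((fderiv ℝ (fun c => f (Ψ c)) w).comp
            ((0 : ↥(kerS y l) →L[ℝ] ℝ × ℝ).prod (ContinuousLinearMap.id ℝ _))) w.2 :=
        HasFDerivAt.comp w.2 (g := fun c => f (Ψ c)) hU hmk
      refine ⟨h2.differentiableAt, fun x => ?_, fun x => ?_⟩
      · have h3 : HasFDerivAt (fun z => f (Ψ ((stpA n z).1, j (stpA n z).2))) _ z :=
          HasFDerivAt.comp z (g := fun c => f (Ψ c)) (by rw [← hw]; exact hU) hG
        rw [h3.fderiv]
        rfl
      · have h2' : HasFDerivAt (fun c : ↥(kerS y l) => f (Ψ (w.1, c)))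
          ((fderiv ℝ (fun c => f (Ψ c)) w).comp
            ((0 : ↥(kerS y l) →L[ℝ] ℝ × ℝ).prod (ContinuousLinearMap.id ℝ _)))
            (j (stpA n z).2) := by
          have h4 : w.2 = j (stpA n z).2 := by rw [hw]
          rw [← h4]
          exact h2
        have h3 : HasFDerivAt (fun z1 => f (Ψ (w.1, j z1))) _ (stpA n z).2 :=
          HasFDerivAt.comp (stpA n z).2 (g := fun c : ↥(kerS y l) => f (Ψ (w.1, c))) h2'
            hjd.hasFDerivAt
        rw [h3.fderiv]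
        rfl
    have hu' : DifferentiableAt ℝ u (Ψ w) := by rw [hw]; exact hu
    have hv' : DifferentiableAt ℝ v (Ψ w) := by rw [hw]; exact hv
    obtain ⟨hu1, hu2, hu3⟩ := key u hu'
    obtain ⟨hv1, hv2, hv3⟩ := key v hv'
    have hbr := h.bracket hP hwρ hu' hv'
    have h4 : w.2 = j (stpA n z).2 := by rw [hw]
    have hbr2 : brk (PS P Θ) (fun z => u (Ψ (w.1, z))) (fun z => v (Ψ (w.1, z))) w.2 =
        pb (fun z1 => u (Ψ (w.1, j z1))) (fun z1 => v (Ψ (w.1, j z1))) (stpA n z).2 := by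
      rw [h4]
      exact hj.bracket _ (hw1 z hz) _ _ (by rw [← h4]; exact hu1) (by rw [← h4]; exact hv1)
    have hgoal : brk P u v (Ψ ((stpA n z).1, j (stpA n z).2)) = brk P u v (Ψ w) := by rw [hw]
    rw [hgoal, hbr, hbr2]
    unfold pb gP gQ
    rw [Fin.sum_univ_succ]
    simp only [hu2, hv2, hu3, hv3, stpA_Q0, stpA_P0, stpA_Qs, stpA_Ps, map_zero]
  · -- real
    intro q hq
    have h1 : stpA n (q, 0) = ((q 0, 0), (fun i => q i.succ, 0)) := rfl
    have h2 := hw1 _ hq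
    have h3 := hw3 _ hq
    rw [h1] at h2 h3
    simp only [h1]
    rw [mem_ball_zero_iff, Prod.norm_mk] at h3
    have h5 := hj.real _ h2
    refine hT (q 0) _ ?_ (lt_of_le_of_lt (le_max_right _ _) h3) h5
    refine lt_of_le_of_lt ?_ (lt_of_le_of_lt (le_max_left _ _) h3)
    rw [Prod.norm_mk]
    exact le_max_left _ _

end CoP
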