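import Pool.Agent.Lib.CoP.C.Defs

/-!
# CoP.C.Trans (size 150): translation of the base point

`brk_translate`: `fderiv` of `fun x => u (x0 + x)` (`fderiv_comp_add_left` or similar). `LPS.translate`: the ball of radius `r - ‖x0‖` around `x0` is inside `ball 0 r`; for the Jacobi identity use the translated
open set `(x0 + ·) '' U` (preimage under `· - x0`) and the functions `u (· - x0)`. `LPS.mono`, `Cois.translate` (`x0 ∈ V`), `NF.translate` are immediate.
-/

open Set Filter Metric
open scoped Topology ContDiff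

noncomputable section

namespace CoP

variable {E : Type*} [NormedAddCommGroup E] [NormedSpace ℝ E]
  {P : E → (E →L[ℝ] ℝ) →L[ℝ] E} {r : ℝ}

theorem brk_translate (x0 : E) (u v : E → ℝ) (x : E) :
    brk (fun x => P (x0 + x)) (fun x => u (x0 + x)) (fun x => v (x0 + x)) x =
      brk P u v (x0 + x) := by
  unfold brk
  rw [fderiv_comp_add_left, fderiv_comp_add_left]

theorem LPS.mono (h : LPS P r) {r' : ℝ} (h0 : 0 < r') (hle : r' ≤ r) : LPS P r' where
  pos := h0
  smooth := h.smooth.mono (ball_subset_ball hle)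
  skew x hx := h.skew x (ball_subset_ball hle hx)
  jacobi U hU := h.jacobi U (hU.trans (ball_subset_ball hle))

omit [NormedSpace ℝ E] in
private theorem tr_ball {x0 x : E} {r : ℝ} (hx : x ∈ ball (0 : E) (r - ‖x0‖)) :
    x0 + x ∈ ball (0 : E) r := by
  rw [mem_ball_zero_iff] at hx ⊢
  have h1 := norm_add_le x0 x
  linarith

theorem LPS.translate (h : LPS P r) {x0 : E} (hx0 : ‖x0‖ < r) :
    LPS (fun x => P (x0 + x)) (r - ‖x0‖) := by
  have hmap : MapsTo (fun x : E => x0 + x) (ball (0 : E) (r - ‖x0‖)) (ball (0 : E) r) :=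
    fun x hx => tr_ball hx
  refine ⟨by linarith, ?_, fun x hx α β => h.skew (x0 + x) (tr_ball hx) α β, ?_⟩
  · exact h.smooth.comp (contDiff_const.add contDiff_id).contDiffOn hmap
  · intro U hU hopen u v w hu hv hw x hx
    have hback : ∀ g : E → ℝ, (fun x => (fun y => g (y - x0)) (x0 + x)) = g := by
      intro g
      funext x
      simp
    have hc : Continuous fun y : E => y - x0 := continuous_id.sub continuous_const
    have hsm : ∀ g : E → ℝ, ContDiffOn ℝ ∞ g U →
        ContDiffOn ℝ ∞ (fun y => g (y - x0)) ((fun y : E => y - x0) ⁻¹' U) := by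
      intro g hg
      exact hg.comp (contDiff_id.sub contDiff_const).contDiffOn fun y hy => hy
    have hbrk : ∀ g g' : E → ℝ, (fun y => brk (fun x => P (x0 + x)) g g' (y - x0)) =
        brk P (fun y => g (y - x0)) (fun y => g' (y - x0)) := by
      intro g g'
      funext y
      have h1 := brk_translate (P := P) x0 (fun y => g (y - x0)) (fun y => g' (y - x0)) (y - x0)
      rw [hback g, hback g'] at h1
      rw [h1]
      congr 1
      abel
    have hbrk2 : ∀ g g' : E → ℝ, brk (fun x => P (x0 + x)) g g' x =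
        brk P (fun y => g (y - x0)) (fun y => g' (y - x0)) (x0 + x) := by
      intro g g'
      have h1 := brk_translate (P := P) x0 (fun y => g (y - x0)) (fun y => g' (y - x0)) x
      rw [hback g, hback g'] at h1
      exact h1
    have key := h.jacobi ((fun y : E => y - x0) ⁻¹' U) (fun y hy => by
        have h1 := hmap (hU hy)
        simpa using h1) (hopen.preimage hc) _ _ _ (hsm u hu) (hsm v hv) (hsm w hw) (x0 + x) (by
        simpa using hx)
    rw [hbrk2, hbrk2, hbrk2, hbrk, hbrk, hbrk]
    exact key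

theorem Cois.translate {V : Submodule ℝ E} (h : Cois P V r) {x0 : E} (hx0 : x0 ∈ V) :
    Cois (fun x => P (x0 + x)) V (r - ‖x0‖) := by
  intro x hxV hx α hα
  exact h (x0 + x) (V.add_mem hx0 hxV) (tr_ball hx) α hα

theorem NF.translate {V : Submodule ℝ E} {x0 : E} (hx0 : x0 ∈ V) {r1 r' : ℝ} (hle : ‖x0‖ + r1 ≤ r')
    {n : ℕ} {p : E} {R : ℝ} {j : Z n → E} (h : NF (fun x => P (x0 + x)) V r1 n p R j) :
    NF P V r' n (x0 + p) R (fun z => x0 + j z) := by
  refine ⟨h.pos, V.add_mem hx0 h.mem, contDiffOn_const.add h.smooth, ?_, ?_, ?_, ?_, ?_⟩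
  · intro z hz z' hz' hzz
    exact h.inj hz hz' (add_left_cancel hzz)
  · show x0 + j 0 = x0 + p
    rw [h.zero]
  · intro z hz
    have h1 := h.maps z hz
    have h2 := norm_add_le x0 (j z)
    show ‖x0 + j z‖ < r'
    linarith
  · intro z hz u v hu hv
    have hadd : DifferentiableAt ℝ (fun x : E => x0 + x) (j z) :=
      (differentiableAt_const x0).add differentiableAt_id
    have h1 := h.bracket z hz (fun x => u (x0 + x)) (fun x => v (x0 + x))
      (DifferentiableAt.comp (j z) hu hadd) (DifferentiableAt.comp (j z) hv hadd)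
    rw [brk_translate] at h1
    exact h1
  · intro q hq
    exact V.add_mem hx0 (h.real q hq)

end CoP
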