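import Pool.Agent.Lib.CoP.C.SpC
import Pool.Agent.Lib.CoP.C.Alg2
import Pool.Agent.Lib.CoP.C.Alg3
import Pool.Agent.Lib.CoP.C.Trans
import Pool.Agent.Lib.CoP.C.Step

/-!
# CoP.C.Ind (module C3): the normal form, by strong induction on the dimension
-/

open Set Filter Metric
open scoped Topology ContDiff

noncomputable section

namespace CoP

/-- A nonzero vector is normalised by some functional. -/
private lemma exists_norm_fun {E : Type*} [NormedAddCommGroup E] [NormedSpace ℝ E] {v : E}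
    (hv : v ≠ 0) : ∃ l : E →L[ℝ] ℝ, l v = 1 := by
  have hn : (‖v‖ : ℝ) ≠ 0 := norm_ne_zero_iff.2 hv
  obtain ⟨f, -, hf⟩ := exists_dual_vector ℝ v hn
  refine ⟨(‖v‖)⁻¹ • f, ?_⟩
  change (‖v‖)⁻¹ * f v = 1
  rw [hf]
  simpa using inv_mul_cancel₀ hn

private lemma finrank_kerS_lt {E : Type*} [NormedAddCommGroup E] [NormedSpace ℝ E]
    [FiniteDimensional ℝ E] (y l : E →L[ℝ] ℝ) {v : E} (hv : l v = 1) :
    Module.finrank ℝ ↥(kerS y l) < Module.finrank ℝ E := by
  apply Submodule.finrank_lt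
  intro h
  have : v ∈ kerS y l := by rw [h]; trivial
  have h2 := this.2
  simp only [SetLike.mem_coe, LinearMap.mem_ker] at h2
  have h3 : l v = 0 := h2
  rw [hv] at h3
  exact one_ne_zero h3

private lemma core : ∀ (d : ℕ) (E : Type*) [NormedAddCommGroup E] [NormedSpace ℝ E]
    [FiniteDimensional ℝ E], Module.finrank ℝ E = d → ∀ (P : E → (E →L[ℝ] ℝ) →L[ℝ] E) (r : ℝ),
    LPS P r → ∀ (V : Submodule ℝ E), Cois P V r → ∀ r' : ℝ, 0 < r' → r' ≤ r →
    ∃ (n : ℕ) (p : E) (R : ℝ) (j : Z n → E), NF P V r' n p R j := by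
  intro d
  induction d using Nat.strong_induction_on with
  | _ d ih =>
  intro E _ _ _ hd P r h V hV r' h0 hr'
  by_cases hA : ∃ x ∈ V, ‖x‖ < r' ∧ ∃ y : E →L[ℝ] ℝ, (∀ v ∈ V, y v = 0) ∧ P x y ≠ 0
  · obtain ⟨x, hxV, hxr, y, hy, hPy⟩ := hA
    obtain ⟨l, hl⟩ := exists_norm_fun hPy
    have hxr2 : ‖x‖ < r := hxr.trans_le hr'
    have hP' := h.translate hxr2
    have hV' := hV.translate hxV
    have hl' : l ((fun w => P (x + w)) 0 y) = 1 := by simpa using hl
    have hT : ∀ w ∈ V, w ∈ ball (0 : E) (r - ‖x‖) → (fun w => P (x + w)) w y ∈ V :=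
      fun w hw hwb => hV' w hw hwb y hy
    obtain ⟨ρ, Ψ, Θ, hS, htan⟩ := exists_split hP' y l hl' V hT
    have hlps := hS.lps hP'
    have hcois := hS.cois_A hP' V hV' hy
    obtain ⟨r1, hr1, hr1ρ, hstep⟩ := hS.step hP' V htan (sub_pos.2 hxr)
    have hfr := finrank_kerS_lt y l hl'
    obtain ⟨n, p, R, j, hj⟩ := ih _ (hd ▸ hfr) _ rfl _ ρ hlps _ hcois r1 hr1 hr1ρ
    obtain ⟨R', j', hj'⟩ := hstep n p R j hj
    exact ⟨n + 1, x + p, R', fun z => x + j' z, NF.translate hxV (by linarith) hj'⟩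
  · push Not at hA
    by_cases hB : P 0 = 0
    · refine ⟨0, 0, 1, fun _ => 0, ⟨one_pos, V.zero_mem, contDiffOn_const, ?_, rfl, ?_, ?_, ?_⟩⟩
      · intro a _ b _ _
        exact Subsingleton.elim _ _
      · intro z _
        simpa using h0
      · intro z _ u v _ _
        simp [brk, hB, pb]
      · intro q _
        exact V.zero_mem
    · obtain ⟨y, hy⟩ : ∃ y, P 0 y ≠ 0 := by
        by_contra hcon
        push Not at hcon
        exact hB (ContinuousLinearMap.ext hcon)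
      obtain ⟨l, hl⟩ := exists_norm_fun hy
      have hP' : LPS P r' := h.mono h0 hr'
      have hz : ∀ x ∈ V, x ∈ ball (0 : E) r' → ∀ α : E →L[ℝ] ℝ, (∀ v ∈ V, α v = 0) → P x α = 0 :=
        fun x hx hxb α hα => hA x hx (by simpa using hxb) α hα
      have hT : ∀ w ∈ V, w ∈ ball (0 : E) r' → P w y ∈ V :=
        fun w hw hwb => tangent_of_zero hP' V hwb (hz w hw hwb) y
      obtain ⟨ρ, Ψ, Θ, hS, htan⟩ := exists_split hP' y l hl V hT
      have hlps := hS.lps hP'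
      have hcois := hS.cois_B hP' V hz
      obtain ⟨r1, hr1, hr1ρ, hstep⟩ := hS.step hP' V htan h0
      have hfr := finrank_kerS_lt y l hl
      obtain ⟨n, p, R, j, hj⟩ := ih _ (hd ▸ hfr) _ rfl _ ρ hlps _ hcois r1 hr1 hr1ρ
      obtain ⟨R', j', hj'⟩ := hstep n p R j hj
      exact ⟨n + 1, p, R', j', hj'⟩

variable {E : Type*} [NormedAddCommGroup E] [NormedSpace ℝ E] [FiniteDimensional ℝ E]

theorem normal_form {P : E → (E →L[ℝ] ℝ) →L[ℝ] E} {r : ℝ} (h : LPS P r) (V : Submodule ℝ E)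
    (hV : Cois P V r) {r' : ℝ} (h0 : 0 < r') (hr' : r' ≤ r) :
    ∃ (n : ℕ) (p : E) (R : ℝ) (j : Z n → E), NF P V r' n p R j :=
  core _ E rfl P r h V hV r' h0 hr'

end CoP
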