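import Pool.Agent.Lib.CoP.C.Defs
import Pool.Agent.Lib.CoP.F.Comm

/-!
# CoP.C.SpA (size 250): the conjugate function

`Xy e = P e y` is smooth on `ball 0 r`; `exists_flow` gives `Fl`, `δ`. `K = ker l` (Submodule), `T (a, w) = Fl (a, w)` on `ℝ × K`: derivative at `0`:
`(a, w) ↦ a • P 0 y + w` (`Fl (0,x) = x`, `deriv`), bijective onto `E` because `l (P 0 y) = 1`: inverse `e ↦ (l e, e - l e • P 0 y)`. Inverse function theorem: local inverse `T⁻¹`, smooth near `0`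
(`OpenPartialHomeomorph.contDiffAt_symm` on the open set where the derivative is invertible). `xf e = (T⁻¹ e).1`. Then for `e` near `0`, `e = T (a, w)`: `fderiv xf e (P e y) = d/ds xf (T (s, w))|_{s=a} = 1`, and
`l e = 0` implies `e = T (0, e)`, `xf e = 0`. Choose `ρ` small.

`conj_field`: with `Xx e = P e (fderiv ℝ xf e)`:
(1) smooth (composition); (2) `y (Xx e) = -fderiv xf e (P e y) = -1` (skew); (3) `fderiv xf e (Xx e) = 0` (skew);
(4) for a linear functional `f`: Jacobi with `u = y`, `v = xf`, `w = f` on `U = ball 0 ρ`: `{y,{xf,f}} + {xf,{f,y}} + {f,{y,xf}} = 0`; `{y,xf} = 1` on `U`, so the last term is `0`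
(`fderiv` of a function constant near `e`); `{xf,f} = f ∘ Xx`, `{y,f} = f ∘ Xy`; `brk P y g e = fderiv g e (Xy e)`, `brk P xf g e = fderiv g e (Xx e)`, skewness of the second bracket:
`f (fderiv Xx e (Xy e)) = f (fderiv Xy e (Xx e))` for all `f`, so the vectors are equal (`ContinuousLinearMap` separates points: Hahn-Banach or a basis).
-/

open Set Filter Metric
open scoped Topology ContDiff

noncomputable section

namespace CoP

variable {E : Type*} [NormedAddCommGroup E] [NormedSpace ℝ E] [FiniteDimensional ℝ E]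

theorem exists_conj {P : E → (E →L[ℝ] ℝ) →L[ℝ] E} {r : ℝ} (h : LPS P r) (y l : E →L[ℝ] ℝ)
    (hyl : l (P 0 y) = 1) : ∃ (ρ : ℝ) (Fl : ℝ × E → E) (xf : E → ℝ), 0 < ρ ∧ ρ ≤ r ∧
      IsFlow (fun e => P e y) r Fl ρ ∧ ContDiffOn ℝ ∞ xf (ball 0 ρ) ∧
      (∀ e ∈ ball (0 : E) ρ, l e = 0 → xf e = 0) ∧
      (∀ e ∈ ball (0 : E) ρ, fderiv ℝ xf e (P e y) = 1) := by
  have hX : ContDiffOn ℝ ∞ (fun e => P e y) (ball 0 r) := h.smooth.clm_apply contDiffOn_const
  obtain ⟨Fl, δ, hFl⟩ := exists_flow h.pos hX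
  have hδ := hFl.pos
  let K : Submodule ℝ E := LinearMap.ker l.toLinearMap
  have hK : ∀ w : K, l (w : E) = 0 := fun w => w.2
  let ι : ℝ × K →L[ℝ] ℝ × E := (ContinuousLinearMap.id ℝ ℝ).prodMap K.subtypeL
  have hι : ∀ p, ι p = (p.1, (p.2 : E)) := fun p => rfl
  have hιn : ∀ p : ℝ × K, ‖ι p‖ = ‖p‖ := fun p => rfl
  let T : ℝ × K → E := fun p => Fl (ι p)
  have hιb : ∀ p ∈ ball (0 : ℝ × K) δ, ι p ∈ ball (0 : ℝ × E) δ := by
    intro p hp
    rw [mem_ball_zero_iff] at hp ⊢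
    rwa [hιn]
  have hTc : ∀ p ∈ ball (0 : ℝ × K) δ, ContDiffAt ℝ ∞ T p := fun p hp =>
    (hFl.smooth.contDiffAt (isOpen_ball.mem_nhds (hιb p hp))).comp p ι.contDiff.contDiffAt
  have h0 : (0 : ℝ × K) ∈ ball (0 : ℝ × K) δ := mem_ball_self hδ
  have hFl0 : Fl 0 = 0 := hFl.zero 0 (mem_ball_self hδ)
  have hT0 : T 0 = 0 := by
    show Fl (ι 0) = 0
    rw [map_zero]
    exact hFl0
  have hFd : HasFDerivAt Fl (fderiv ℝ Fl 0) 0 :=
    ((hFl.smooth.contDiffAt (ball_mem_nhds 0 hδ)).differentiableAt (by simp)).hasFDerivAt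
  have hD1 : fderiv ℝ Fl 0 (1, 0) = P 0 y := by
    have e1 : HasDerivAt (fun t : ℝ => Fl (t, (0 : E))) (P (Fl 0) y) 0 :=
      hFl.deriv 0 (mem_ball_self hδ)
    have e3 : HasDerivAt (fun t : ℝ => ((t, (0 : E)) : ℝ × E)) (1, 0) 0 :=
      (hasDerivAt_id 0).prodMk (hasDerivAt_const _ _)
    have e2 : HasDerivAt (fun t : ℝ => Fl (t, (0 : E))) (fderiv ℝ Fl 0 (1, 0)) 0 :=
      HasFDerivAt.comp_hasDerivAt (0 : ℝ) (f := fun t : ℝ => ((t, (0 : E)) : ℝ × E)) hFd e3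
    rw [e2.unique e1, hFl0]
  have hD2 : ∀ w : E, fderiv ℝ Fl 0 (0, w) = w := by
    intro w
    have e0 : HasDerivAt (fun t : ℝ => t • w) w 0 := by
      have := (hasDerivAt_id (0 : ℝ)).smul_const w
      rwa [one_smul] at this
    have e3 : HasDerivAt (fun t : ℝ => (((0 : ℝ), t • w) : ℝ × E)) (0, w) 0 :=
      (hasDerivAt_const _ _).prodMk e0
    have hFd' : HasFDerivAt Fl (fderiv ℝ Fl 0) ((0 : ℝ), (0 : ℝ) • w) := by
      rw [zero_smul]
      exact hFd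
    have e2 : HasDerivAt (fun t : ℝ => Fl ((0 : ℝ), t • w)) (fderiv ℝ Fl 0 (0, w)) 0 :=
      HasFDerivAt.comp_hasDerivAt (0 : ℝ) (f := fun t : ℝ => (((0 : ℝ), t • w) : ℝ × E)) hFd' e3
    have e4 : (fun t : ℝ => Fl ((0 : ℝ), t • w)) =ᶠ[𝓝 0] fun t : ℝ => t • w := by
      have e5 : ∀ᶠ t : ℝ in 𝓝 0, t • w ∈ ball (0 : E) δ :=
        e0.continuousAt.eventually_mem (by
          simp only [zero_smul]
          exact ball_mem_nhds 0 hδ)
      filter_upwards [e5] with t ht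
      exact hFl.zero _ ht
    exact (e2.congr_of_eventuallyEq e4.symm).unique e0
  let D : ℝ × K →L[ℝ] E := (fderiv ℝ Fl 0).comp ι
  have hD : ∀ p : ℝ × K, D p = p.1 • P 0 y + (p.2 : E) := by
    intro p
    show fderiv ℝ Fl 0 (p.1, (p.2 : E)) = _
    have e1 : ((p.1, (p.2 : E)) : ℝ × E) = p.1 • ((1 : ℝ), (0 : E)) + ((0 : ℝ), (p.2 : E)) := by
      ext <;> simp
    rw [e1, map_add, map_smul, hD1, hD2]
  have hbij : Function.Bijective (D : ℝ × K →ₗ[ℝ] E) := by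
    constructor
    · rw [← LinearMap.ker_eq_bot, LinearMap.ker_eq_bot']
      intro p hp
      have hp' : p.1 • P 0 y + (p.2 : E) = 0 := by
        rw [← hD]
        exact hp
      have e1 : p.1 = 0 := by
        have e2 := congrArg l hp'
        rwa [map_add, map_smul, hyl, hK, map_zero, add_zero, smul_eq_mul, mul_one] at e2
      rw [e1, zero_smul, zero_add] at hp'
      exact Prod.ext e1 (Subtype.ext hp')
    · intro e
      refine ⟨(l e, ⟨e - l e • P 0 y, ?_⟩), ?_⟩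
      · show l (e - l e • P 0 y) = 0
        rw [map_sub, map_smul, hyl, smul_eq_mul, mul_one, sub_self]
      · show D _ = e
        rw [hD]
        exact add_sub_cancel _ _
  let A : (ℝ × K) ≃L[ℝ] E := (LinearEquiv.ofBijective (D : ℝ × K →ₗ[ℝ] E) hbij).toContinuousLinearEquiv
  have hA : (A : ℝ × K →L[ℝ] E) = D := by
    ext1 <;> ext <;> rfl
  have hT' : HasFDerivAt T (A : ℝ × K →L[ℝ] E) 0 := by
    rw [hA]
    have e1 : HasFDerivAt Fl (fderiv ℝ Fl 0) (ι 0) := by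
      rw [map_zero]
      exact hFd
    exact e1.comp 0 ι.hasFDerivAt
  have hn : (∞ : WithTop ℕ∞) ≠ 0 := by simp
  let Φ := (hTc 0 h0).toOpenPartialHomeomorph T hT' hn
  have hΦ : ∀ p, Φ p = T p := fun p => rfl
  have hΦs : (0 : ℝ × K) ∈ Φ.source := (hTc 0 h0).mem_toOpenPartialHomeomorph_source hT' hn
  have hΦt : (0 : E) ∈ Φ.target := by
    have e1 := Φ.map_source hΦs
    rwa [hΦ, hT0] at e1
  have hΦ0 : Φ.symm 0 = 0 := by
    have e1 := Φ.left_inv hΦs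
    rwa [hΦ, hT0] at e1
  -- the good points
  have hinv : ∀ᶠ p in 𝓝 (0 : ℝ × K), fderiv ℝ T p ∈
      range ((↑) : ((ℝ × K) ≃L[ℝ] E) → (ℝ × K →L[ℝ] E)) := by
    have e1 : ContinuousAt (fderiv ℝ T) 0 :=
      ((hTc 0 h0).fderiv_right (m := 0) (by simp)).continuousAt
    refine e1.eventually_mem ?_
    rw [hT'.fderiv]
    exact A.nhds
  have hgood : ∀ᶠ e in 𝓝 (0 : E), (e ∈ Φ.target ∧ Φ.symm e ∈ ball (0 : ℝ × K) δ) ∧
      fderiv ℝ T (Φ.symm e) ∈ range ((↑) : ((ℝ × K) ≃L[ℝ] E) → (ℝ × K →L[ℝ] E)) := by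
    have hc : Tendsto Φ.symm (𝓝 0) (𝓝 0) := by
      have e1 := Φ.continuousAt_symm hΦt
      rw [ContinuousAt, hΦ0] at e1
      exact e1
    exact ((Φ.open_target.eventually_mem hΦt).and
      (hc.eventually (isOpen_ball.eventually_mem h0))).and (hc.eventually hinv)
  obtain ⟨ρ₁, hρ₁, hg⟩ := Metric.eventually_nhds_iff_ball.1 hgood
  obtain ⟨ρ₂, hρ₂, hs⟩ := Metric.eventually_nhds_iff_ball.1 (Φ.open_source.eventually_mem hΦs)
  have hm1 : min (min ρ₁ ρ₂) (min δ r) ≤ ρ₁ := (min_le_left _ _).trans (min_le_left _ _)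
  have hm2 : min (min ρ₁ ρ₂) (min δ r) ≤ ρ₂ := (min_le_left _ _).trans (min_le_right _ _)
  have hm3 : min (min ρ₁ ρ₂) (min δ r) ≤ δ := (min_le_right _ _).trans (min_le_left _ _)
  have hm4 : min (min ρ₁ ρ₂) (min δ r) ≤ r := (min_le_right _ _).trans (min_le_right _ _)
  have hmpos : 0 < min (min ρ₁ ρ₂) (min δ r) := lt_min (lt_min hρ₁ hρ₂) (lt_min hδ h.pos)
  have hsm : ∀ e ∈ ball (0 : E) ρ₁, ContDiffAt ℝ ∞ Φ.symm e := by
    intro e he
    obtain ⟨⟨h1, h2⟩, A', hA'⟩ := hg e he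
    refine Φ.contDiffAt_symm h1 (f₀' := A') ?_ (hTc _ h2)
    rw [hA']
    exact ((hTc _ h2).differentiableAt (by simp)).hasFDerivAt
  refine ⟨min (min ρ₁ ρ₂) (min δ r), Fl, fun e => (Φ.symm e).1, hmpos, hm4,
    hFl.mono hmpos hm3, ?_, ?_, ?_⟩
  · intro e he
    exact (contDiff_fst.contDiffAt.comp e (hsm e (ball_subset_ball hm1 he))).contDiffWithinAt
  · intro e he hle
    have hes : ((0 : ℝ), (⟨e, hle⟩ : K)) ∈ Φ.source := by
      refine hs _ ?_
      rw [mem_ball_zero_iff, ← hιn, hι, Prod.norm_def, norm_zero,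
        max_eq_right (norm_nonneg _)]
      exact mem_ball_zero_iff.1 (ball_subset_ball hm2 he)
    have e1 := Φ.left_inv hes
    have e2 : Φ ((0 : ℝ), (⟨e, hle⟩ : K)) = e := hFl.zero e (ball_subset_ball hm3 he)
    rw [e2] at e1
    show (Φ.symm e).1 = 0
    rw [e1]
  · intro e he
    have he1 := ball_subset_ball hm1 he
    obtain ⟨⟨h1, h2⟩, -⟩ := hg e he1
    have hp : Φ (Φ.symm e) = e := Φ.right_inv h1
    have hps : Φ.symm e ∈ Φ.source := Φ.map_target h1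
    have e1 : HasDerivAt (fun t : ℝ => Fl (t, ((Φ.symm e).2 : E))) (P (Fl (ι (Φ.symm e))) y)
        (Φ.symm e).1 := hFl.deriv _ (hιb _ h2)
    have e2 : Fl (ι (Φ.symm e)) = e := hp
    rw [e2] at e1
    have e3 : HasFDerivAt (fun e => (Φ.symm e).1) (fderiv ℝ (fun e => (Φ.symm e).1) e)
        (Fl ((Φ.symm e).1, ((Φ.symm e).2 : E))) := by
      have e4 : Fl ((Φ.symm e).1, ((Φ.symm e).2 : E)) = e := hp
      rw [e4]
      exact ((contDiff_fst.contDiffAt.comp e (hsm e he1)).differentiableAt (by simp)).hasFDerivAt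
    have e5 := HasFDerivAt.comp_hasDerivAt (Φ.symm e).1
      (f := fun t : ℝ => Fl (t, ((Φ.symm e).2 : E))) e3 e1
    have e6 : ((fun e => (Φ.symm e).1) ∘ fun t : ℝ => Fl (t, ((Φ.symm e).2 : E))) =ᶠ[𝓝 (Φ.symm e).1]
        fun t => t := by
      have e7 : ∀ᶠ t : ℝ in 𝓝 (Φ.symm e).1, ((t, (Φ.symm e).2) : ℝ × K) ∈ Φ.source := by
        have e8 : ContinuousAt (fun t : ℝ => ((t, (Φ.symm e).2) : ℝ × K)) (Φ.symm e).1 := by
          fun_prop
        exact e8.eventually_mem (Φ.open_source.mem_nhds hps)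
      filter_upwards [e7] with t ht
      show (Φ.symm (Fl (t, ((Φ.symm e).2 : E)))).1 = t
      have e9 := Φ.left_inv ht
      have e10 : Φ ((t, (Φ.symm e).2) : ℝ × K) = Fl (t, ((Φ.symm e).2 : E)) := rfl
      rw [e10] at e9
      rw [e9]
    exact e5.unique ((hasDerivAt_id _).congr_of_eventuallyEq e6)

end CoP
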