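import Pool.Agent.Lib.CoP.C.Defs

/-!
# CoP.C.SpB (size 150): the conjugate vector field

Proof: see (1)-(4) in the header of `CoP.C.SpA` (`conj_field`).
-/

open Set Filter Metric
open scoped Topology ContDiff

noncomputable section

namespace CoP

variable {E : Type*} [NormedAddCommGroup E] [NormedSpace ℝ E] [FiniteDimensional ℝ E]

theorem conj_field {P : E → (E →L[ℝ] ℝ) →L[ℝ] E} {r ρ : ℝ} (h : LPS P r) (hρ : 0 < ρ)
    (hρr : ρ ≤ r) (y : E →L[ℝ] ℝ) {xf : E → ℝ} (hxf : ContDiffOn ℝ ∞ xf (ball 0 ρ))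
    (h1 : ∀ e ∈ ball (0 : E) ρ, fderiv ℝ xf e (P e y) = 1) :
    ContDiffOn ℝ ∞ (fun e => P e (fderiv ℝ xf e)) (ball 0 ρ) ∧
    (∀ e ∈ ball (0 : E) ρ, y (P e (fderiv ℝ xf e)) = -1) ∧
    (∀ e ∈ ball (0 : E) ρ, fderiv ℝ xf e (P e (fderiv ℝ xf e)) = 0) ∧
    (∀ e ∈ ball (0 : E) ρ, fderiv ℝ (fun e' => P e' (fderiv ℝ xf e')) e (P e y) =
      fderiv ℝ (fun e' => P e' y) e (P e (fderiv ℝ xf e))) := by
  have hsub : ball (0 : E) ρ ⊆ ball 0 r := ball_subset_ball hρr
  have hP : ContDiffOn ℝ ∞ P (ball 0 ρ) := h.smooth.mono hsub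
  have hdx : ContDiffOn ℝ ∞ (fderiv ℝ xf) (ball 0 ρ) := hxf.fderiv_of_isOpen isOpen_ball le_rfl
  have hX : ContDiffOn ℝ ∞ (fun e => P e (fderiv ℝ xf e)) (ball 0 ρ) := hP.clm_apply hdx
  have hY : ContDiffOn ℝ ∞ (fun e => P e y) (ball 0 ρ) := hP.clm_apply contDiffOn_const
  refine ⟨hX, ?_, ?_, ?_⟩
  · intro e he
    rw [h.skew e (hsub he) (fderiv ℝ xf e) y, h1 e he]
  · intro e he
    have := h.skew e (hsub he) (fderiv ℝ xf e) (fderiv ℝ xf e)
    linarith
  · intro e he
    have hnh : ball (0 : E) ρ ∈ 𝓝 e := isOpen_ball.mem_nhds he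
    have hXd : DifferentiableAt ℝ (fun e => P e (fderiv ℝ xf e)) e :=
      (hX.contDiffAt hnh).differentiableAt (by simp)
    have hYd : DifferentiableAt ℝ (fun e => P e y) e := (hY.contDiffAt hnh).differentiableAt (by simp)
    have key : ∀ f : E →L[ℝ] ℝ, f (fderiv ℝ (fun e' => P e' (fderiv ℝ xf e')) e (P e y)) =
        f (fderiv ℝ (fun e' => P e' y) e (P e (fderiv ℝ xf e))) := by
      intro f
      have hj := h.jacobi (ball 0 ρ) hsub isOpen_ball (fun x => y x) xf (fun x => f x)
        y.contDiff.contDiffOn hxf f.contDiff.contDiffOn e he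
      have hfy : ∀ x, fderiv ℝ (fun x => y x) x = y := fun x => y.fderiv
      have hff : ∀ x, fderiv ℝ (fun x => f x) x = f := fun x => f.fderiv
      have e1 : brk P (fun x => y x) (brk P xf (fun x => f x)) e =
          f (fderiv ℝ (fun e' => P e' (fderiv ℝ xf e')) e (P e y)) := by
        have a1 : brk P xf (fun x => f x) = fun x => f (P x (fderiv ℝ xf x)) := by
          funext x
          simp only [brk, hff]
        simp only [brk] at a1 ⊢
        rw [a1, hfy]
        have a2 : HasFDerivAt (fun x => f (P x (fderiv ℝ xf x)))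
            (f.comp (fderiv ℝ (fun e' => P e' (fderiv ℝ xf e')) e)) e :=
          f.hasFDerivAt.comp e hXd.hasFDerivAt
        rw [a2.fderiv]
        rfl
      have e2 : brk P xf (brk P (fun x => f x) (fun x => y x)) e =
          -f (fderiv ℝ (fun e' => P e' y) e (P e (fderiv ℝ xf e))) := by
        have a1 : brk P (fun x => f x) (fun x => y x) =ᶠ[𝓝 e] fun x => -f (P x y) := by
          filter_upwards [hnh] with x hx
          simp only [brk, hff, hfy]
          exact h.skew x (hsub hx) f y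
        have a3 : brk P xf (brk P (fun x => f x) (fun x => y x)) e =
            fderiv ℝ (brk P (fun x => f x) (fun x => y x)) e (P e (fderiv ℝ xf e)) := rfl
        rw [a3, a1.fderiv_eq]
        have a2 : HasFDerivAt (fun x => -f (P x y))
            (-(f.comp (fderiv ℝ (fun e' => P e' y) e))) e :=
          (f.hasFDerivAt.comp e hYd.hasFDerivAt).neg
        rw [a2.fderiv]
        rfl
      have e3 : brk P (fun x => f x) (brk P (fun x => y x) xf) e = 0 := by
        have a1 : brk P (fun x => y x) xf =ᶠ[𝓝 e] fun _ => (1 : ℝ) := by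
          filter_upwards [hnh] with x hx
          simp only [brk, hfy]
          exact h1 x hx
        have a3 : brk P (fun x => f x) (brk P (fun x => y x) xf) e =
            fderiv ℝ (brk P (fun x => y x) xf) e (P e (fderiv ℝ (fun x => f x) e)) := rfl
        rw [a3, a1.fderiv_eq]
        simp
      rw [e1, e2, e3] at hj
      linarith
    exact (NormedSpace.eq_iff_forall_dual_eq ℝ).mpr key

end CoP
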