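import Pool.Agent.Lib.CoP.C.SpA
import Pool.Agent.Lib.CoP.C.SpB

/-!
# CoP.C.SpC (size 350): existence of splitting coordinates

`exists_conj` gives `ρ0, Fl, xf`; `Xy = P · y`, `Xx = P · (D xf)` on `ball 0 ρ0` (`conj_field`); let `Gl` be a flow of `-Xx` on `ball 0 ρ0` (`exists_flow`). On `(ℝ×ℝ)×S`, `S = kerS y l`:
`Ψ ((a,b),z) = Fl (a, Gl (b, z))`, smooth near `0`. For small `ρ1` (all arguments stay in the domains; `Fl 0 = Gl 0 = 0`, continuity):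
* `∂_a Ψ = Xy(Ψ)` (`IsFlow.deriv`), `∂_b Ψ = D Fl (a, Gl(b,z)) (0, -Xx (Gl (b,z))) = -Xx(Ψ)` by `IsFlow.comm` with `X = Xy`, `Y = -Xx` (restrict the flow `Fl` to a smaller radius so that its values lie in
  `ball 0 ρ0`: `IsFlow Xy ρ0 Fl δ'`);
* `y (Ψ) = b`: `∂_a (y Ψ) = y (P Ψ y) = 0`, `∂_b (y Ψ) = -y(Xx) = 1`, `y (Ψ ((0,0),z)) = y z = 0`;
* `xf (Ψ) = a`: `∂_a = 1`, `∂_b = -D xf (Xx) = 0`, `xf z = 0` as `l z = 0` (for the `b` direction take `a = 0` first);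
* `DΨ 0 ((a,b),s) = a • Xy 0 - b • Xx 0 + s` is bijective: if it is `0` apply `y`: `b = 0`; apply `D xf 0`: `a + D xf 0 s = a` (`xf = 0` on `ker l`, so `D xf 0 s = 0`), so `a = 0`, `s = 0`; dimensions: `dim S = dim E - 2`
  (or give the inverse: `e ↦ ((D xf 0 e, y e), e - (D xf 0 e) Xy 0 + (y e) Xx 0)`, which lies in `ker y`; it lies in `ker l` because ... use injectivity + surjectivity: for surjectivity decompose `e = (l-part) ...`;
  choose whichever is easier: `finrank` argument: `finrank S + 2 ≥ finrank E`).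
* inverse function theorem: `Θ` local inverse, smooth on the open image of a small ball `ball 0 ρ` (`ContDiffAt.toOpenPartialHomeomorph`, `contDiffAt_symm`).
* `dx`: `(Θ e).1.1 = xf e` on the open set `Ψ '' ball 0 ρ`, so the derivatives agree, and `P (Ψ w) (D xf (Ψ w)) = Xx (Ψ w) = -∂_b Ψ`.
* tangency: if `P x y ∈ V` for `x ∈ V` then `Fl (a, z) ∈ V` for `z ∈ V` by `IsFlow.inv`, and `Ψ ((a,0),z) = Fl (a, Gl (0,z)) = Fl (a, z)`.
-/

open Set Filter Metric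
open scoped Topology ContDiff

noncomputable section

namespace CoP

private theorem spc_const {f : ℝ → ℝ} {c ρ : ℝ} (h : ∀ t ∈ ball (0 : ℝ) ρ, HasDerivAt f c t)
    {t : ℝ} (ht : t ∈ ball (0 : ℝ) ρ) : f t = f 0 + c * t := by
  have hρ : 0 < ρ := pos_of_mem_ball ht
  have h0 : (0 : ℝ) ∈ ball (0 : ℝ) ρ := mem_ball_self hρ
  have hd : ∀ s ∈ ball (0 : ℝ) ρ, HasDerivAt (fun s => f s - c * s) 0 s := by
    intro s hs
    have h1 := (h s hs).fun_sub ((hasDerivAt_id' s).const_mul c)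
    rwa [mul_one, sub_self] at h1
  have h2 := IsOpen.is_const_of_deriv_eq_zero (isOpen_ball : IsOpen (ball (0 : ℝ) ρ))
    (convex_ball (0 : ℝ) ρ).isPreconnected (f := fun s => f s - c * s)
    (fun s hs => (hd s hs).differentiableAt.differentiableWithinAt)
    (fun s hs => (hd s hs).deriv) ht h0
  simp only [mul_zero, sub_zero] at h2
  linarith

/-- the inverse function theorem on a small ball -/
private theorem spc_ift {W E : Type*} [NormedAddCommGroup W] [NormedSpace ℝ W] [CompleteSpace W]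
    [NormedAddCommGroup E] [NormedSpace ℝ E] [CompleteSpace E] {Ψ : W → E} {ρ1 : ℝ} (hρ1 : 0 < ρ1)
    (hΨ : ContDiffOn ℝ ∞ Ψ (ball 0 ρ1)) (hbij : Function.Bijective (fderiv ℝ Ψ 0)) :
    ∃ (ρ : ℝ) (Θ : E → W), 0 < ρ ∧ ρ ≤ ρ1 ∧ IsOpen (Ψ '' ball 0 ρ) ∧
      ContDiffOn ℝ ∞ Θ (Ψ '' ball 0 ρ) ∧ ∀ w ∈ ball (0 : W) ρ, Θ (Ψ w) = w := by
  have hat : ∀ w ∈ ball (0 : W) ρ1, ContDiffAt ℝ ∞ Ψ w := fun w hw =>
    hΨ.contDiffAt (isOpen_ball.mem_nhds hw)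
  have h0 : (0 : W) ∈ ball (0 : W) ρ1 := mem_ball_self hρ1
  obtain ⟨L, hL⟩ : ∃ L : W ≃L[ℝ] E, (L : W →L[ℝ] E) = fderiv ℝ Ψ 0 := by
    refine ⟨ContinuousLinearEquiv.ofBijective (fderiv ℝ Ψ 0) (LinearMap.ker_eq_bot.2 hbij.1)
      (LinearMap.range_eq_top.2 hbij.2), ?_⟩
    exact ContinuousLinearEquiv.coe_ofBijective _ _ _
  have hd0 : HasFDerivAt Ψ (L : W →L[ℝ] E) 0 := by
    rw [hL]
    exact ((hat 0 h0).differentiableAt (by simp)).hasFDerivAt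
  obtain ⟨f, hf⟩ : ∃ f : OpenPartialHomeomorph W E,
      f = (hat 0 h0).toOpenPartialHomeomorph Ψ hd0 (by simp) := ⟨_, rfl⟩
  have hfc : (f : W → E) = Ψ := by rw [hf]; rfl
  have hf0 : (0 : W) ∈ f.source := by
    rw [hf]; exact (hat 0 h0).mem_toOpenPartialHomeomorph_source hd0 (by simp)
  have hinv : ∀ᶠ w in 𝓝 (0 : W), fderiv ℝ Ψ w ∈ range ((↑) : (W ≃L[ℝ] E) → W →L[ℝ] E) := by
    have hcont : ContinuousAt (fun w => fderiv ℝ Ψ w) 0 :=
      ((hat 0 h0).fderiv_right (m := 0) (by simp)).continuousAt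
    refine hcont.eventually (IsOpen.mem_nhds ContinuousLinearEquiv.isOpen ?_)
    exact ⟨L, hL⟩
  have hall := (hinv.and (f.open_source.mem_nhds hf0))
  obtain ⟨ρ, hρ, hsub⟩ := Metric.eventually_nhds_iff_ball.1 hall
  refine ⟨min ρ ρ1, f.symm, lt_min hρ hρ1, min_le_right _ _, ?_, ?_, ?_⟩
  · rw [← hfc]
    refine f.isOpen_image_of_subset_source isOpen_ball fun w hw => ?_
    exact (hsub w (ball_subset_ball (min_le_left _ _) hw)).2
  · rintro e ⟨w, hw, rfl⟩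
    obtain ⟨⟨L', hL'⟩, hws⟩ := hsub w (ball_subset_ball (min_le_left _ _) hw)
    have hw1 : w ∈ ball (0 : W) ρ1 := ball_subset_ball (min_le_right _ _) hw
    have hsymm : f.symm (Ψ w) = w := by
      rw [← hfc]
      exact f.left_inv hws
    have hcd : ContDiffAt ℝ ∞ f.symm (Ψ w) := by
      refine f.contDiffAt_symm (f₀' := L') ?_ ?_ ?_
      · rw [← hfc]
        exact f.map_source hws
      · rw [hsymm, hfc, hL']
        exact ((hat w hw1).differentiableAt (by simp)).hasFDerivAt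
      · rw [hsymm, hfc]
        exact hat w hw1
    exact hcd.contDiffWithinAt
  · intro w hw
    rw [← hfc]
    exact f.left_inv (hsub w (ball_subset_ball (min_le_left _ _) hw)).2

private theorem spc_ball {S : Type*} [NormedAddCommGroup S] {ρ : ℝ} {w : (ℝ × ℝ) × S} :
    w ∈ ball (0 : (ℝ × ℝ) × S) ρ ↔ (|w.1.1| < ρ ∧ |w.1.2| < ρ) ∧ ‖w.2‖ < ρ := by
  rw [mem_ball_zero_iff, Prod.norm_def, Prod.norm_def, max_lt_iff, max_lt_iff, Real.norm_eq_abs,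
    Real.norm_eq_abs]

private theorem spc_ball2 {S : Type*} [NormedAddCommGroup S] {ρ : ℝ} {w : ℝ × S} :
    w ∈ ball (0 : ℝ × S) ρ ↔ |w.1| < ρ ∧ ‖w.2‖ < ρ := by
  rw [mem_ball_zero_iff, Prod.norm_def, max_lt_iff, Real.norm_eq_abs]

variable {E : Type*} [NormedAddCommGroup E] [NormedSpace ℝ E] [FiniteDimensional ℝ E]

theorem exists_split {P : E → (E →L[ℝ] ℝ) →L[ℝ] E} {r : ℝ} (h : LPS P r) (y l : E →L[ℝ] ℝ)
    (hyl : l (P 0 y) = 1) (V : Submodule ℝ E) (hV : ∀ x ∈ V, x ∈ ball (0 : E) r → P x y ∈ V) :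
    ∃ (ρ : ℝ) (Ψ : (ℝ × ℝ) × ↥(kerS y l) → E) (Θ : E → (ℝ × ℝ) × ↥(kerS y l)),
      SplitChart P r ρ y l Ψ Θ ∧ ∀ (a : ℝ) (z : ↥(kerS y l)), |a| < ρ → ‖z‖ < ρ → (z : E) ∈ V →
        Ψ ((a, 0), z) ∈ V := by
  have : CompleteSpace E := FiniteDimensional.complete ℝ E
  have : CompleteSpace ↥(kerS y l) := FiniteDimensional.complete ℝ _
  obtain ⟨ρ0, Fl, xf, hρ0, hρ0r, hFl, hxf, hxl, hx1⟩ := exists_conj h y l hyl
  obtain ⟨hXx, hyX, hxX, hcm⟩ := conj_field h hρ0 hρ0r y hxf hx1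
  have hsub0 : ball (0 : E) ρ0 ⊆ ball 0 r := ball_subset_ball hρ0r
  obtain ⟨X, hX⟩ : ∃ X : E → E, X = fun e => P e y := ⟨_, rfl⟩
  obtain ⟨Y, hY⟩ : ∃ Y : E → E, Y = fun e => -P e (fderiv ℝ xf e) := ⟨_, rfl⟩
  have hXs : ContDiffOn ℝ ∞ X (ball 0 ρ0) := by
    rw [hX]
    exact (h.smooth.mono hsub0).clm_apply contDiffOn_const
  have hYs : ContDiffOn ℝ ∞ Y (ball 0 ρ0) := by
    rw [hY]
    exact hXx.neg
  have hyXz : ∀ e ∈ ball (0 : E) ρ0, y (X e) = 0 := by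
    intro e he
    have h1 := h.skew e (hsub0 he) y y
    rw [hX]
    simp only
    linarith
  have hyY : ∀ e ∈ ball (0 : E) ρ0, y (Y e) = 1 := by
    intro e he
    rw [hY]
    simp only
    rw [map_neg, hyX e he, neg_neg]
  have hxXe : ∀ e ∈ ball (0 : E) ρ0, fderiv ℝ xf e (X e) = 1 := by
    intro e he
    rw [hX]
    exact hx1 e he
  have hxYe : ∀ e ∈ ball (0 : E) ρ0, fderiv ℝ xf e (Y e) = 0 := by
    intro e he
    rw [hY]
    simp only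
    rw [map_neg, hxX e he, neg_zero]
  have hXY : ∀ x ∈ ball (0 : E) ρ0, fderiv ℝ Y x (X x) = fderiv ℝ X x (Y x) := by
    intro x hx
    have h1 := hcm x hx
    rw [hY, hX]
    simp only
    rw [fderiv_fun_neg, neg_apply, h1, map_neg]
  rw [← hX] at hFl
  obtain ⟨Gl, δ1, hGl⟩ := exists_flow hρ0 hYs
  -- the flow of `X` with values in the ball of radius `ρ0`
  obtain ⟨δ2, hFl2⟩ : ∃ δ2, IsFlow X ρ0 Fl δ2 := by
    have h0 : (0 : ℝ × E) ∈ ball (0 : ℝ × E) ρ0 := mem_ball_self hρ0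
    have hc : ContinuousAt Fl 0 := (hFl.smooth.contDiffAt (isOpen_ball.mem_nhds h0)).continuousAt
    have hF0 : Fl 0 = 0 := hFl.zero 0 (mem_ball_self hρ0)
    have hev : ∀ᶠ p in 𝓝 (0 : ℝ × E), Fl p ∈ ball (0 : E) ρ0 := by
      refine hc.eventually ?_
      rw [hF0]
      exact isOpen_ball.mem_nhds (mem_ball_self hρ0)
    obtain ⟨δ, hδ, hs⟩ := Metric.eventually_nhds_iff_ball.1 hev
    have hle : min δ ρ0 ≤ ρ0 := min_le_right _ _
    exact ⟨min δ ρ0, {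
      pos := lt_min hδ hρ0
      smooth := hFl.smooth.mono (ball_subset_ball hle)
      zero := fun x hx => hFl.zero x (ball_subset_ball hle hx)
      maps := fun p hp => hs p (ball_subset_ball (min_le_left _ _) hp)
      deriv := fun p hp => hFl.deriv p (ball_subset_ball hle hp) }⟩
  have hcomm := hFl2.comm hXs hYs hXY
  obtain ⟨δ3, hδ3, hδ32, hinv⟩ := hFl2.inv hρ0 hXs V
    (fun x hxV hx => by rw [hX]; exact hV x hxV (hsub0 hx))
  obtain ⟨G, hG⟩ : ∃ G : (ℝ × ℝ) × ↥(kerS y l) → E, G = fun w => Gl (w.1.2, (w.2 : E)) := ⟨_, rfl⟩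
  obtain ⟨Ψ, hΨ⟩ : ∃ Ψ : (ℝ × ℝ) × ↥(kerS y l) → E, Ψ = fun w => Fl (w.1.1, G w) := ⟨_, rfl⟩
  have hGball : ∀ w ∈ ball (0 : (ℝ × ℝ) × ↥(kerS y l)) δ1,
      (w.1.2, (w.2 : E)) ∈ ball (0 : ℝ × E) δ1 := fun w hw => by
    obtain ⟨⟨-, h1⟩, h2⟩ := spc_ball.1 hw
    exact spc_ball2.2 ⟨h1, h2⟩
  have hG0 : G 0 = 0 := by
    rw [hG]
    exact hGl.zero 0 (mem_ball_self hGl.pos)
  have hGs : ContDiffOn ℝ ∞ G (ball 0 δ1) := by
    rw [hG]
    refine hGl.smooth.comp (ContDiff.contDiffOn ?_) hGball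
    exact (contDiff_snd.comp contDiff_fst).prodMk
      ((kerS y l).subtypeL.contDiff.comp contDiff_snd)
  obtain ⟨ρ1, hρ1, hρ1δ, hρ13, hA⟩ : ∃ ρ1 : ℝ, 0 < ρ1 ∧ ρ1 ≤ δ1 ∧ ρ1 ≤ δ3 ∧
      ∀ w ∈ ball (0 : (ℝ × ℝ) × ↥(kerS y l)) ρ1, (w.1.1, G w) ∈ ball (0 : ℝ × E) δ3 := by
    have hc : ContinuousAt G 0 :=
      (hGs.contDiffAt (isOpen_ball.mem_nhds (mem_ball_self hGl.pos))).continuousAt
    have hev : ∀ᶠ w in 𝓝 (0 : (ℝ × ℝ) × ↥(kerS y l)), G w ∈ ball (0 : E) δ3 := by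
      refine hc.eventually ?_
      rw [hG0]
      exact isOpen_ball.mem_nhds (mem_ball_self hδ3)
    obtain ⟨δ, hδ, hs⟩ := Metric.eventually_nhds_iff_ball.1 hev
    refine ⟨min δ (min δ1 δ3), lt_min hδ (lt_min hGl.pos hδ3),
      (min_le_right _ _).trans (min_le_left _ _), (min_le_right _ _).trans (min_le_right _ _),
      fun w hw => ?_⟩
    have h1 := hs w (ball_subset_ball (min_le_left _ _) hw)
    have h2 := spc_ball.1 hw
    refine spc_ball2.2 ⟨h2.1.1.trans_le ((min_le_right _ _).trans (min_le_right _ _)), ?_⟩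
    exact mem_ball_zero_iff.1 h1
  have hA2 : ∀ w ∈ ball (0 : (ℝ × ℝ) × ↥(kerS y l)) ρ1, (w.1.1, G w) ∈ ball (0 : ℝ × E) δ2 :=
    fun w hw => ball_subset_ball hδ32 (hA w hw)
  have hGm : ∀ w ∈ ball (0 : (ℝ × ℝ) × ↥(kerS y l)) ρ1, G w ∈ ball (0 : E) ρ0 := fun w hw => by
    rw [hG]
    exact hGl.maps _ (hGball w (ball_subset_ball hρ1δ hw))
  have hΨm : ∀ w ∈ ball (0 : (ℝ × ℝ) × ↥(kerS y l)) ρ1, Ψ w ∈ ball (0 : E) ρ0 := fun w hw => by
    rw [hΨ]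
    exact hFl2.maps _ (hA2 w hw)
  have hΨs : ContDiffOn ℝ ∞ Ψ (ball 0 ρ1) := by
    rw [hΨ]
    refine hFl2.smooth.comp ?_ hA2
    exact (contDiff_fst.comp contDiff_fst).contDiffOn.prodMk
      (hGs.mono (ball_subset_ball hρ1δ))
  have hΨd : ∀ w ∈ ball (0 : (ℝ × ℝ) × ↥(kerS y l)) ρ1, HasFDerivAt Ψ (fderiv ℝ Ψ w) w :=
    fun w hw => ((hΨs.contDiffAt (isOpen_ball.mem_nhds hw)).differentiableAt (by simp)).hasFDerivAt
  -- moving in the directions of `a` and `b`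
  have hma : ∀ w ∈ ball (0 : (ℝ × ℝ) × ↥(kerS y l)) ρ1, ∀ t ∈ ball (0 : ℝ) ρ1,
      ((t, w.1.2), w.2) ∈ ball (0 : (ℝ × ℝ) × ↥(kerS y l)) ρ1 := fun w hw t ht => by
    have h1 := spc_ball.1 hw
    exact spc_ball.2 ⟨⟨by simpa using ht, h1.1.2⟩, h1.2⟩
  have hmb : ∀ w ∈ ball (0 : (ℝ × ℝ) × ↥(kerS y l)) ρ1, ∀ t ∈ ball (0 : ℝ) ρ1,
      ((w.1.1, t), w.2) ∈ ball (0 : (ℝ × ℝ) × ↥(kerS y l)) ρ1 := fun w hw t ht => by
    have h1 := spc_ball.1 hw
    exact spc_ball.2 ⟨⟨h1.1.1, by simpa using ht⟩, h1.2⟩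
  have hda : ∀ w ∈ ball (0 : (ℝ × ℝ) × ↥(kerS y l)) ρ1,
      HasDerivAt (fun t => Ψ ((t, w.1.2), w.2)) (X (Ψ w)) w.1.1 := fun w hw => by
    have h1 := hFl2.deriv _ (hA2 w hw)
    rw [hΨ, hG]
    rw [hG] at h1
    exact h1
  have hdb : ∀ w ∈ ball (0 : (ℝ × ℝ) × ↥(kerS y l)) ρ1,
      HasDerivAt (fun t => G ((w.1.1, t), w.2)) (Y (G w)) w.1.2 := fun w hw => by
    rw [hG]
    exact hGl.deriv _ (hGball w (ball_subset_ball hρ1δ hw))
  have hdΨb : ∀ w ∈ ball (0 : (ℝ × ℝ) × ↥(kerS y l)) ρ1,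
      HasDerivAt (fun t => Ψ ((w.1.1, t), w.2)) (Y (Ψ w)) w.1.2 := fun w hw => by
    have h1 := hcomm _ (hA2 w hw)
    have h2 : HasFDerivAt Fl (fderiv ℝ Fl (w.1.1, G w)) (w.1.1, G w) :=
      ((hFl2.smooth.contDiffAt (isOpen_ball.mem_nhds (hA2 w hw))).differentiableAt
        (by simp)).hasFDerivAt
    have h3 : HasDerivAt (fun t => (w.1.1, G ((w.1.1, t), w.2))) (0, Y (G w)) w.1.2 :=
      (hasDerivAt_const _ _).prodMk (hdb w hw)
    have h4 := HasFDerivAt.comp_hasDerivAt w.1.2 h2 h3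
    simp only at h1
    rw [h1] at h4
    rw [hΨ]
    exact h4
  have hfa : ∀ w ∈ ball (0 : (ℝ × ℝ) × ↥(kerS y l)) ρ1, fderiv ℝ Ψ w ((1, 0), 0) = X (Ψ w) :=
    fun w hw => by
    have h3 : HasDerivAt (fun t : ℝ => (((t, w.1.2) : ℝ × ℝ), w.2)) ((1, 0), 0) w.1.1 :=
      ((hasDerivAt_id' _).prodMk (hasDerivAt_const _ _)).prodMk (hasDerivAt_const _ _)
    have h4 := HasFDerivAt.comp_hasDerivAt w.1.1 (f := fun t : ℝ => (((t, w.1.2) : ℝ × ℝ), w.2))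
      (hΨd w hw) h3
    exact h4.unique (hda w hw)
  have hfb : ∀ w ∈ ball (0 : (ℝ × ℝ) × ↥(kerS y l)) ρ1, fderiv ℝ Ψ w ((0, 1), 0) = Y (Ψ w) :=
    fun w hw => by
    have h3 : HasDerivAt (fun t : ℝ => (((w.1.1, t) : ℝ × ℝ), w.2)) ((0, 1), 0) w.1.2 :=
      ((hasDerivAt_const _ _).prodMk (hasDerivAt_id' _)).prodMk (hasDerivAt_const _ _)
    have h4 := HasFDerivAt.comp_hasDerivAt w.1.2 (f := fun t : ℝ => (((w.1.1, t) : ℝ × ℝ), w.2))
      (hΨd w hw) h3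
    exact h4.unique (hdΨb w hw)
  -- the values on `a = 0` and on `b = 0`
  have h0a : ∀ w ∈ ball (0 : (ℝ × ℝ) × ↥(kerS y l)) ρ1, Ψ ((0, w.1.2), w.2) = G w := fun w hw => by
    have h1 := spc_ball2.1 (hA2 w hw)
    have h2 := hFl2.zero (G w) (mem_ball_zero_iff.2 h1.2)
    rw [hΨ, hG]
    rw [hG] at h2
    exact h2
  have h0b : ∀ w ∈ ball (0 : (ℝ × ℝ) × ↥(kerS y l)) ρ1, G ((w.1.1, 0), w.2) = w.2 := fun w hw => by
    have h1 := spc_ball.1 hw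
    have h2 := hGl.zero (w.2 : E) (mem_ball_zero_iff.2 (h1.2.trans_le hρ1δ))
    rw [hG]
    exact h2
  have hbase : ∀ z : ↥(kerS y l), ‖z‖ < ρ1 → Ψ ((0, 0), z) = z := fun z hz => by
    have hw : (((0 : ℝ), (0 : ℝ)), z) ∈ ball (0 : (ℝ × ℝ) × ↥(kerS y l)) ρ1 :=
      spc_ball.2 ⟨⟨by simpa using hρ1, by simpa using hρ1⟩, hz⟩
    have h1 := h0a _ hw
    have h2 := h0b _ hw
    simp only at h1 h2
    rw [h1, h2]
  have hSy : ∀ z : ↥(kerS y l), y (z : E) = 0 := fun z => by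
    have := (Submodule.mem_inf.1 z.2).1
    exact this
  have hSl : ∀ z : ↥(kerS y l), l (z : E) = 0 := fun z => by
    have := (Submodule.mem_inf.1 z.2).2
    exact this
  have hw1 : ∀ w ∈ ball (0 : (ℝ × ℝ) × ↥(kerS y l)) ρ1, w.1.1 ∈ ball (0 : ℝ) ρ1 := fun w hw => by
    simpa using (spc_ball.1 hw).1.1
  have hw2 : ∀ w ∈ ball (0 : (ℝ × ℝ) × ↥(kerS y l)) ρ1, w.1.2 ∈ ball (0 : ℝ) ρ1 := fun w hw => by
    simpa using (spc_ball.1 hw).1.2
  have hyG : ∀ w ∈ ball (0 : (ℝ × ℝ) × ↥(kerS y l)) ρ1, y (G w) = w.1.2 := fun w hw => by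
    have h1 := spc_const (f := fun t => y (G ((w.1.1, t), w.2))) (c := 1) (ρ := ρ1) (fun t ht => by
      have h2 := HasFDerivAt.comp_hasDerivAt t (y.hasFDerivAt (x := G ((w.1.1, t), w.2)))
        (hdb _ (hmb w hw t ht))
      rw [hyY _ (hGm _ (hmb w hw t ht))] at h2
      exact h2) (hw2 w hw)
    rw [h0b w hw, hSy, zero_add, one_mul] at h1
    exact h1
  have hyΨ : ∀ w ∈ ball (0 : (ℝ × ℝ) × ↥(kerS y l)) ρ1, y (Ψ w) = w.1.2 := fun w hw => by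
    have h1 := spc_const (f := fun t => y (Ψ ((t, w.1.2), w.2))) (c := 0) (ρ := ρ1) (fun t ht => by
      have h2 := HasFDerivAt.comp_hasDerivAt t (y.hasFDerivAt (x := Ψ ((t, w.1.2), w.2)))
        (hda _ (hma w hw t ht))
      rw [hyXz _ (hΨm _ (hma w hw t ht))] at h2
      exact h2) (hw1 w hw)
    rw [h0a w hw, hyG w hw, zero_mul, add_zero] at h1
    exact h1
  have hxd : ∀ e ∈ ball (0 : E) ρ0, HasFDerivAt xf (fderiv ℝ xf e) e := fun e he =>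
    ((hxf.contDiffAt (isOpen_ball.mem_nhds he)).differentiableAt (by simp)).hasFDerivAt
  have hxG : ∀ w ∈ ball (0 : (ℝ × ℝ) × ↥(kerS y l)) ρ1, xf (G w) = 0 := fun w hw => by
    have h1 := spc_const (f := fun t => xf (G ((w.1.1, t), w.2))) (c := 0) (ρ := ρ1) (fun t ht => by
      have h2 := HasFDerivAt.comp_hasDerivAt t (hxd _ (hGm _ (hmb w hw t ht)))
        (hdb _ (hmb w hw t ht))
      rw [hxYe _ (hGm _ (hmb w hw t ht))] at h2
      exact h2) (hw2 w hw)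
    have h3 : ((w.2 : ↥(kerS y l)) : E) ∈ ball (0 : E) ρ0 := by
      have h4 := hGm _ (hmb w hw 0 (mem_ball_self hρ1))
      rwa [h0b w hw] at h4
    rw [h0b w hw, hxl _ h3 (hSl w.2), zero_mul, add_zero] at h1
    exact h1
  have hxΨ : ∀ w ∈ ball (0 : (ℝ × ℝ) × ↥(kerS y l)) ρ1, xf (Ψ w) = w.1.1 := fun w hw => by
    have h1 := spc_const (f := fun t => xf (Ψ ((t, w.1.2), w.2))) (c := 1) (ρ := ρ1) (fun t ht => by
      have h2 := HasFDerivAt.comp_hasDerivAt t (hxd _ (hΨm _ (hma w hw t ht)))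
        (hda _ (hma w hw t ht))
      rw [hxXe _ (hΨm _ (hma w hw t ht))] at h2
      exact h2) (hw1 w hw)
    rw [h0a w hw, hxG w hw, zero_add, one_mul] at h1
    exact h1
  -- the derivative at `0`
  have h00 : (0 : (ℝ × ℝ) × ↥(kerS y l)) ∈ ball (0 : (ℝ × ℝ) × ↥(kerS y l)) ρ1 :=
    mem_ball_self hρ1
  have hΨ0 : Ψ 0 = 0 := by
    have h1 := hbase 0 (by simpa using hρ1)
    exact h1
  have hfs : ∀ s : ↥(kerS y l), fderiv ℝ Ψ 0 ((0, 0), s) = s := fun s => by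
    have h3 : HasDerivAt (fun t : ℝ => (((0, 0) : ℝ × ℝ), t • s)) ((0, 0), s) 0 := by
      refine (hasDerivAt_const _ _).prodMk ?_
      have h5 := (hasDerivAt_id' (0 : ℝ)).smul_const s
      rwa [one_smul] at h5
    have h4 := HasFDerivAt.comp_hasDerivAt_of_eq (0 : ℝ)
      (f := fun t : ℝ => (((0, 0) : ℝ × ℝ), t • s)) (hΨd 0 h00) h3
      (by rw [zero_smul]; rfl)
    have h6 : HasDerivAt (fun t : ℝ => Ψ (((0, 0) : ℝ × ℝ), t • s)) (s : E) 0 := by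
      have h7 : HasDerivAt (fun t : ℝ => t • (s : E)) (s : E) 0 := by
        have h5 := (hasDerivAt_id' (0 : ℝ)).smul_const (s : E)
        rwa [one_smul] at h5
      refine h7.congr_of_eventuallyEq ?_
      have h8 : ∀ᶠ t : ℝ in 𝓝 0, ‖t • s‖ < ρ1 := by
        have h9 : Continuous fun t : ℝ => ‖t • s‖ := by fun_prop
        refine h9.continuousAt.eventually (gt_mem_nhds ?_)
        simpa using hρ1
      filter_upwards [h8] with t ht
      rw [hbase _ ht]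
      rfl
    exact h4.unique h6
  have hfd : ∀ w : (ℝ × ℝ) × ↥(kerS y l), fderiv ℝ Ψ 0 w =
      w.1.1 • X 0 + w.1.2 • Y 0 + (w.2 : E) := fun w => by
    have h1 : w = w.1.1 • (((1, 0) : ℝ × ℝ), (0 : ↥(kerS y l))) +
        w.1.2 • (((0, 1) : ℝ × ℝ), (0 : ↥(kerS y l))) + ((0, 0), w.2) := by
      ext <;> simp
    have h2 := congrArg (fderiv ℝ Ψ 0) h1
    rw [map_add, map_add, map_smul, map_smul, hfa 0 h00, hfb 0 h00, hfs, hΨ0] at h2
    exact h2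
  have h0E : (0 : E) ∈ ball (0 : E) ρ0 := mem_ball_self hρ0
  have hlX : l (X 0) = 1 := by
    rw [hX]
    exact hyl
  have hbij : Function.Bijective (fderiv ℝ Ψ 0) := by
    constructor
    · rw [injective_iff_map_eq_zero]
      intro w hw
      rw [hfd] at hw
      have h1 := congrArg y hw
      rw [map_add, map_add, map_smul, map_smul, hyXz 0 h0E, hyY 0 h0E, hSy, smul_zero, zero_add,
        add_zero, smul_eq_mul, mul_one, map_zero] at h1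
      rw [h1, zero_smul, add_zero] at hw
      have h2 := congrArg l hw
      rw [map_add, map_smul, hlX, hSl, add_zero, smul_eq_mul, mul_one, map_zero] at h2
      rw [h2, zero_smul, zero_add] at hw
      have h3 : w.2 = 0 := Subtype.ext hw
      exact Prod.ext (Prod.ext h2 h1) h3
    · intro e
      have hmem : e - (l e - y e * l (Y 0)) • X 0 - (y e) • Y 0 ∈ kerS y l := by
        refine Submodule.mem_inf.2 ⟨?_, ?_⟩
        · change y (e - (l e - y e * l (Y 0)) • X 0 - (y e) • Y 0) = 0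
          rw [map_sub, map_sub, map_smul, map_smul, hyXz 0 h0E, hyY 0 h0E]
          simp
        · change l (e - (l e - y e * l (Y 0)) • X 0 - (y e) • Y 0) = 0
          rw [map_sub, map_sub, map_smul, map_smul, hlX]
          simp
      refine ⟨((l e - y e * l (Y 0), y e), ⟨_, hmem⟩), ?_⟩
      rw [hfd]
      simp only
      abel
  obtain ⟨ρ, Θ, hρ, hρρ1, hop, hΘs, hΘl⟩ := spc_ift hρ1 hΨs hbij
  have hsub : ball (0 : (ℝ × ℝ) × ↥(kerS y l)) ρ ⊆ ball 0 ρ1 := ball_subset_ball hρρ1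
  refine ⟨ρ, Ψ, Θ, {
    pos := hρ
    smooth := hΨs.mono hsub
    isOpen := hop
    smoothInv := hΘs
    left_inv := hΘl
    maps := fun w hw => hsub0 (hΨm w (hsub hw))
    base := fun z hz => hbase z (hz.trans_le hρρ1)
    hy := fun w hw => hyΨ w (hsub hw)
    dy := fun w hw => ?_
    dx := fun w hw => ?_ }, ?_⟩
  · rw [hfa w (hsub hw), hX]
  · have h1 : fderiv ℝ (fun e => (Θ e).1.1) (Ψ w) = fderiv ℝ xf (Ψ w) := by
      refine Filter.EventuallyEq.fderiv_eq ?_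
      filter_upwards [hop.mem_nhds (mem_image_of_mem Ψ hw)] with e he
      obtain ⟨w', hw', rfl⟩ := he
      rw [hΘl w' hw', hxΨ w' (hsub hw')]
    rw [h1, hfb w (hsub hw), hY]
    simp only
    rw [neg_neg]
  · intro a z ha hz hzV
    have hw : (((a : ℝ), (0 : ℝ)), z) ∈ ball (0 : (ℝ × ℝ) × ↥(kerS y l)) ρ1 :=
      spc_ball.2 ⟨⟨ha.trans_le hρρ1, by simpa using hρ1⟩, hz.trans_le hρρ1⟩
    have h1 := hA _ hw
    have h2 := h0b _ hw
    simp only at h1 h2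
    rw [h2] at h1
    have h3 := hinv _ h1 hzV
    rw [hΨ]
    simp only
    rw [h2]
    exact h3

end CoP
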